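import Mathlib
import Pool.Agent.W136.RF.Eul

/-!
Counting products `w c`, `w` in a given set, `c` with all prime divisors in a given set, with the
help of the von Mangoldt function.
-/

set_option autoImplicit false

namespace Pool.Agent.Q15.SP

open Finset Real
open scoped ArithmeticFunction.vonMangoldt

/-- all prime divisors satisfy `G` -/
def AllG (G : ℕ → Prop) (n : ℕ) : Prop := ∀ l : ℕ, l.Prime → l ∣ n → G l

lemma AllG.of_dvd {G : ℕ → Prop} {m n : ℕ} (h : AllG G n) (hd : m ∣ n) : AllG G m :=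
  fun l hl h1 => h l hl (h1.trans hd)

open Classical in
/-- the integers up to `X` all of whose prime divisors satisfy `G` -/
noncomputable def SG (G : ℕ → Prop) (X : ℕ) : Finset ℕ := (Icc 1 X).filter (AllG G)

lemma mem_SG {G : ℕ → Prop} {X m : ℕ} : m ∈ SG G X ↔ (1 ≤ m ∧ m ≤ X) ∧ AllG G m := by
  classical
  rw [SG, Finset.mem_filter, Finset.mem_Icc]

lemma sum_log_le (G : ℕ → Prop) (M : ℕ) :
    ∑ c ∈ SG G M, Real.log c ≤ ∑ m ∈ SG G M, ∑ d ∈ SG G (M / m), Λ d := by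
  classical
  have h1 : ∑ c ∈ SG G M, Real.log c = ∑ c ∈ SG G M, ∑ d ∈ c.divisors, Λ d := by
    refine Finset.sum_congr rfl fun c _ => ?_
    rw [ArithmeticFunction.vonMangoldt_sum]
  rw [h1, Finset.sum_sigma', Finset.sum_sigma']
  have hinj : Set.InjOn (fun s : (_ : ℕ) × ℕ => (⟨s.1 / s.2, s.2⟩ : (_ : ℕ) × ℕ))
      ((SG G M).sigma (fun c => c.divisors) : Finset _) := by
    rintro ⟨c, d⟩ hs ⟨c', d'⟩ hs' h
    rw [Finset.mem_coe, Finset.mem_sigma] at hs hs'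
    simp only [Sigma.mk.injEq, heq_eq_eq] at h
    obtain ⟨h1, h2⟩ := h
    subst h2
    have hd : d ∣ c := Nat.dvd_of_mem_divisors hs.2
    have hd' : d ∣ c' := Nat.dvd_of_mem_divisors hs'.2
    have : c = c' := by
      rw [← Nat.div_mul_cancel hd, ← Nat.div_mul_cancel hd', h1]
    rw [this]
  have h2 : ∑ s ∈ (SG G M).sigma (fun c => c.divisors), Λ s.2 =
      ∑ t ∈ ((SG G M).sigma (fun c => c.divisors)).image
        (fun s : (_ : ℕ) × ℕ => (⟨s.1 / s.2, s.2⟩ : (_ : ℕ) × ℕ)), Λ t.2 := by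
    rw [Finset.sum_image hinj]
  rw [h2]
  apply Finset.sum_le_sum_of_subset_of_nonneg
  · intro t ht
    obtain ⟨⟨c, d⟩, hs, rfl⟩ := Finset.mem_image.1 ht
    rw [Finset.mem_sigma] at hs
    obtain ⟨hc, hd⟩ := hs
    rw [mem_SG] at hc
    have hdc := Nat.dvd_of_mem_divisors hd
    simp only at hdc hc
    rw [Finset.mem_sigma]
    simp only
    have hd0 : 0 < d := Nat.pos_of_dvd_of_pos hdc hc.1.1
    have hq0 : 0 < c / d := Nat.div_pos (Nat.le_of_dvd hc.1.1 hdc) hd0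
    refine ⟨mem_SG.2 ⟨⟨hq0, (Nat.div_le_self _ _).trans hc.1.2⟩,
      hc.2.of_dvd (Nat.div_dvd_of_dvd hdc)⟩, mem_SG.2 ⟨⟨hd0, ?_⟩, hc.2.of_dvd hdc⟩⟩
    rw [Nat.le_div_iff_mul_le hq0]
    calc d * (c / d) = c := Nat.mul_div_cancel' hdc
      _ ≤ M := hc.1.2
  · intro t _ _
    exact ArithmeticFunction.vonMangoldt_nonneg

/-- the main counting lemma -/
theorem lam {G : ℕ → Prop} {N : ℕ} {W E : Finset ℕ} (hW : ∀ w ∈ W, 1 ≤ w) {K L : ℝ}
    (hK : 0 ≤ K) (hψ : ∀ X : ℕ, ∑ d ∈ SG G X, Λ d ≤ K * X)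
    (hE : ∀ b ∈ E, b ≤ N ∧ ∃ w ∈ W, ∃ c, b = w * c ∧ 1 ≤ c ∧ AllG G c ∧ L ≤ Real.log c) :
    (E.card : ℝ) * L ≤ K * N * (∑ w ∈ W, (1 : ℝ) / w) * ∑ m ∈ SG G N, (1 : ℝ) / m := by
  classical
  have hWS : 0 ≤ ∑ w ∈ W, (1 : ℝ) / w := Finset.sum_nonneg fun w _ => by positivity
  have hMS : 0 ≤ ∑ m ∈ SG G N, (1 : ℝ) / m := Finset.sum_nonneg fun m _ => by positivity
  rcases le_or_gt L 0 with hL | hL
  · have h1 : (E.card : ℝ) * L ≤ 0 := mul_nonpos_of_nonneg_of_nonpos (Nat.cast_nonneg _) hL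
    have : 0 ≤ K * N * (∑ w ∈ W, (1 : ℝ) / w) * ∑ m ∈ SG G N, (1 : ℝ) / m := by positivity
    linarith
  obtain ⟨T, hT⟩ : ∃ T : Finset ((_ : ℕ) × ℕ), T = (W.sigma (fun w => SG G (N / w))).filter
    (fun t => L ≤ Real.log t.2) := ⟨_, rfl⟩
  have hsub : E ⊆ T.image (fun t => t.1 * t.2) := by
    intro b hb
    obtain ⟨hbN, w, hw, c, hbc, hc1, hG, hLc⟩ := hE b hb
    have hw1 := hW w hw
    refine Finset.mem_image.2 ⟨⟨w, c⟩, ?_, hbc.symm⟩
    rw [hT, Finset.mem_filter, Finset.mem_sigma]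
    refine ⟨⟨hw, mem_SG.2 ⟨⟨hc1, ?_⟩, hG⟩⟩, hLc⟩
    simp only
    rw [Nat.le_div_iff_mul_le hw1, mul_comm, ← hbc]
    exact hbN
  have h1 : (E.card : ℝ) ≤ T.card := by
    exact_mod_cast (Finset.card_le_card hsub).trans Finset.card_image_le
  have h2 : (T.card : ℝ) * L ≤ ∑ t ∈ T, Real.log t.2 := by
    rw [← nsmul_eq_mul, ← Finset.sum_const]
    refine Finset.sum_le_sum fun t ht => ?_
    rw [hT] at ht
    exact (Finset.mem_filter.1 ht).2
  have h3 : ∑ t ∈ T, Real.log t.2 ≤ ∑ t ∈ W.sigma (fun w => SG G (N / w)), Real.log t.2 := by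
    rw [hT]
    apply Finset.sum_le_sum_of_subset_of_nonneg (Finset.filter_subset _ _)
    intro t ht _
    rw [Finset.mem_sigma] at ht
    exact Real.log_nonneg (by exact_mod_cast (mem_SG.1 ht.2).1.1)
  have h4 : ∑ t ∈ W.sigma (fun w => SG G (N / w)), Real.log t.2 =
      ∑ w ∈ W, ∑ c ∈ SG G (N / w), Real.log c := by
    rw [Finset.sum_sigma]
  have h5 : ∑ w ∈ W, ∑ c ∈ SG G (N / w), Real.log c ≤
      ∑ w ∈ W, K * N * ((1 : ℝ) / w) * ∑ m ∈ SG G N, (1 : ℝ) / m := by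
    refine Finset.sum_le_sum fun w hw => ?_
    have hw1 := hW w hw
    have hw0 : (0 : ℝ) < w := by exact_mod_cast hw1
    refine (sum_log_le G (N / w)).trans ?_
    have h6 : ∑ m ∈ SG G (N / w), ∑ d ∈ SG G (N / w / m), Λ d ≤
        ∑ m ∈ SG G (N / w), K * N * ((1 : ℝ) / w) * ((1 : ℝ) / m) := by
      refine Finset.sum_le_sum fun m hm => ?_
      have hm1 := (mem_SG.1 hm).1.1
      have hm0 : (0 : ℝ) < m := by exact_mod_cast hm1
      refine (hψ _).trans ?_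
      have h7 : ((N / w / m : ℕ) : ℝ) ≤ N / w / m := by
        refine Nat.cast_div_le.trans ?_
        exact div_le_div_of_nonneg_right Nat.cast_div_le hm0.le
      calc K * ((N / w / m : ℕ) : ℝ) ≤ K * (N / w / m) := mul_le_mul_of_nonneg_left h7 hK
        _ = _ := by field_simp
    refine h6.trans ?_
    rw [← Finset.mul_sum]
    apply mul_le_mul_of_nonneg_left _ (by positivity)
    apply Finset.sum_le_sum_of_subset_of_nonneg
    · intro m hm
      have hm' := mem_SG.1 hm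
      exact mem_SG.2 ⟨⟨hm'.1.1, hm'.1.2.trans (Nat.div_le_self _ _)⟩, hm'.2⟩
    · intro m _ _
      positivity
  calc (E.card : ℝ) * L ≤ T.card * L := mul_le_mul_of_nonneg_right h1 hL.le
    _ ≤ _ := h2
    _ ≤ _ := h3
    _ = _ := h4
    _ ≤ _ := h5
    _ = _ := by rw [← Finset.sum_mul, ← Finset.mul_sum]

/-- Euler product bound -/
theorem eulerG (G : ℕ → Prop) (N : ℕ) {S : ℝ}
    (hS : ∀ T : Finset ℕ, (∀ l ∈ T, l.Prime ∧ l ≤ N ∧ G l) → ∑ l ∈ T, (1 : ℝ) / l ≤ S) :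
    ∑ m ∈ SG G N, (1 : ℝ) / m ≤ Real.exp (S + 1) := by
  classical
  have h := Pool.Agent.W136.RF.euler_le (G := fun n => if AllG G n then (1 : ℝ) else 0) (B := 1)
    (fun n => by split_ifs <;> norm_num) (by
      rw [if_pos]
      intro l hl h
      exact absurd h hl.not_dvd_one)
    (fun m n _ => by
      by_cases h1 : AllG G m <;> by_cases h2 : AllG G n
      · rw [if_pos h1, if_pos h2, if_pos, one_mul]
        intro l hl h
        rcases hl.dvd_mul.1 h with h3 | h3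
        · exact h1 l hl h3
        · exact h2 l hl h3
      · rw [if_neg h2, mul_zero, if_neg]
        intro h3
        exact h2 (h3.of_dvd (Dvd.intro_left m rfl))
      · rw [if_neg h1, zero_mul, if_neg]
        intro h3
        exact h1 (h3.of_dvd (Dvd.intro n rfl))
      · rw [if_neg h1, zero_mul, if_neg]
        intro h3
        exact h1 (h3.of_dvd (Dvd.intro n rfl)))
    (fun q k _ _ => by split_ifs <;> norm_num) zero_le_one N
  have h0 : ∑ m ∈ SG G N, (1 : ℝ) / m =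
      ∑ k ∈ Icc 1 N, (if AllG G k then (1 : ℝ) else 0) / k := by
    rw [SG, Finset.sum_filter]
    refine Finset.sum_congr rfl fun k _ => ?_
    split_ifs <;> simp
  rw [h0]
  refine h.trans (Real.exp_le_exp.2 ?_)
  have h1 : ∑ l ∈ (Icc 1 N).filter Nat.Prime, (if AllG G l then (1 : ℝ) else 0) / l =
      ∑ l ∈ ((Icc 1 N).filter Nat.Prime).filter (AllG G), (1 : ℝ) / l := by
    rw [Finset.sum_filter (p := AllG G)]
    refine Finset.sum_congr rfl fun l _ => ?_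
    split_ifs <;> simp
  rw [h1]
  have h2 := hS (((Icc 1 N).filter Nat.Prime).filter (AllG G)) (by
    intro l hl
    rw [Finset.mem_filter, Finset.mem_filter, Finset.mem_Icc] at hl
    exact ⟨hl.1.2, hl.1.1.2, hl.2 l hl.1.2 dvd_rfl⟩)
  linarith

end Pool.Agent.Q15.SP
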