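import Mathlib
import Pool.Agent.TH863.Alg

/-!
The structure of the solutions of `b ^ q = x ^ p + y ^ p`.
-/

set_option autoImplicit false

namespace Pool.Agent.Q15.SP

open Finset Pool.Agent.TH863

/-- data attached to a solution of `b ^ q = x ^ p + y ^ p` -/
structure SS (p b b1 b2 : ℕ) : Prop where
  hb : b = b1 * b2
  h1 : 1 ≤ b1
  h2 : 1 ≤ b2
  lo : b ≤ b1 ^ p
  up : b1 ^ p ≤ (2 * p) ^ p * b
  one : ∀ l : ℕ, l.Prime → l ∣ b2 → l % p = 1
  pb : 2 < b → 3 ^ p ≤ 2 ^ p * b ^ 2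

theorem ss_of_solution' {p q x y b : ℕ} (hp : p.Prime) (hp2 : p ≠ 2) (hq : 1 ≤ q)
    (hxy : Nat.Coprime x y) (hx : 0 < x) (hy : 0 < y) (h : b ^ q = x ^ p + y ^ p) :
    ∃ b1 b2 : ℕ, SS p b b1 b2 ∧ ∀ l : ℕ, l.Prime → l ∣ b2 → l ≠ p ∧
      (l : ℤ) ∣ GG p (x : ℤ) (-(y : ℤ)) := by
  have hp3 : 3 ≤ p := by
    have := hp.two_le
    omega
  have hodd : Odd p := hp.odd_of_ne_two hp2
  have hxp : 0 < x ^ p := Nat.pow_pos hx
  have hyp : 0 < y ^ p := Nat.pow_pos hy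
  have hb : 0 < b := by
    rcases Nat.eq_zero_or_pos b with h0 | h0
    · rw [h0, zero_pow (by omega)] at h
      omega
    · exact h0
  have hco : IsCoprime (x : ℤ) (-(y : ℤ)) := (Nat.isCoprime_iff_coprime.2 hxy).neg_right
  have hd : (0 : ℤ) < (x : ℤ) - (-(y : ℤ)) := by
    have h1 : (0 : ℤ) < x := by exact_mod_cast hx
    have h2 : (0 : ℤ) < y := by exact_mod_cast hy
    linarith
  have heq : (x : ℤ) ^ p - (-(y : ℤ)) ^ p = (b : ℤ) ^ q := by
    rw [hodd.neg_pow]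
    have : ((b ^ q : ℕ) : ℤ) = ((x ^ p + y ^ p : ℕ) : ℤ) := by rw [h]
    push_cast at this
    linarith
  obtain ⟨b1, b2, e, he, hb12, hcop, hb1, hb2, hD, hG, he1, he0, hpb2, hone⟩ :=
    split hp hp2 hco hb hq hd heq
  have hDn : p ^ e * (x + y) = b1 ^ q := by
    have : (p : ℤ) ^ e * ((x : ℤ) + y) = (b1 : ℤ) ^ q := by rw [← hD]; ring
    exact_mod_cast this
  have hqne : q ≠ 0 := by omega
  -- main sizes
  have hqp : b1 ^ (q * p) = p ^ (e * p) * (x + y) ^ p := by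
    rw [pow_mul, ← hDn, mul_pow, ← pow_mul]
  have hpe1 : 1 ≤ p ^ (e * p) := Nat.one_le_pow _ _ hp.pos
  have hlow : b ^ q ≤ b1 ^ (q * p) := by
    rw [hqp, h]
    have h1 : x ^ p + y ^ p ≤ (x + y) ^ p := pow_add_pow_le (Nat.zero_le _) (Nat.zero_le _) hp.ne_zero
    calc x ^ p + y ^ p ≤ 1 * (x + y) ^ p := by rw [one_mul]; exact h1
      _ ≤ _ := Nat.mul_le_mul_right _ hpe1
  have hsum : (x + y) ^ p ≤ 2 ^ (p - 1) * b ^ q := by
    rw [h]
    exact add_pow_le (Nat.zero_le _) (Nat.zero_le _) p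
  have hupp : b1 ^ (q * p) ≤ p ^ (e * p) * (2 ^ (p - 1) * b ^ q) := by
    rw [hqp]
    exact Nat.mul_le_mul_left _ hsum
  have h2p : 2 ^ (p - 1) ≤ 2 ^ p := Nat.pow_le_pow_right (by norm_num) (by omega)
  have hpep : p ^ (e * p) ≤ p ^ p := by
    apply Nat.pow_le_pow_right hp.pos
    calc e * p ≤ 1 * p := Nat.mul_le_mul_right _ he
      _ = p := one_mul _
  refine ⟨b1, b2, ⟨hb12, hb1, hb2, ?_, ?_, hone, ?_⟩, ?_⟩
  · have h1 : b ^ q ≤ (b1 ^ p) ^ q := by
      rw [← pow_mul, mul_comm p q]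
      exact hlow
    exact le_of_pow_le_pow_left₀ hqne (Nat.zero_le _) h1
  · have h1 : (b1 ^ p) ^ q ≤ ((2 * p) ^ p * b) ^ q := by
      calc (b1 ^ p) ^ q = b1 ^ (q * p) := by rw [← pow_mul, mul_comm p q]
        _ ≤ p ^ (e * p) * (2 ^ (p - 1) * b ^ q) := hupp
        _ ≤ p ^ p * (2 ^ p * b ^ q) := Nat.mul_le_mul hpep (Nat.mul_le_mul_right _ h2p)
        _ = (2 * p) ^ p * b ^ q := by rw [mul_pow]; ring
        _ ≤ ((2 * p) ^ p) ^ q * b ^ q := by
          apply Nat.mul_le_mul_right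
          exact Nat.le_self_pow hqne _
        _ = ((2 * p) ^ p * b) ^ q := (mul_pow _ _ _).symm
    exact le_of_pow_le_pow_left₀ hqne (Nat.zero_le _) h1
  · intro hb3
    rcases Nat.lt_or_ge q 2 with hq2 | hq2
    · have hq1 : q = 1 := by omega
      subst hq1
      rw [pow_one] at h hsum
      have hxy3 : 3 ≤ x + y := by
        by_contra hc
        have hx1 : x = 1 := by omega
        have hy1 : y = 1 := by omega
        rw [hx1, hy1] at h
        simp at h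
        omega
      calc 3 ^ p ≤ (x + y) ^ p := Nat.pow_le_pow_left hxy3 _
        _ ≤ 2 ^ (p - 1) * b := hsum
        _ ≤ 2 ^ p * b ^ 2 := Nat.mul_le_mul h2p (Nat.le_self_pow (by norm_num) _)
    · have hb1two : 2 ≤ b1 := by
        by_contra hc
        have h1 : b1 = 1 := by omega
        rw [h1, one_pow] at hDn
        have h2 : 1 * (x + y) ≤ p ^ e * (x + y) := Nat.mul_le_mul_right _ (Nat.one_le_pow _ _ hp.pos)
        omega
      have key : 3 ^ (q * p) ≤ b ^ (2 * q) * 2 ^ (q * p) := by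
        rcases Nat.lt_or_ge e 1 with h0 | h0
        · have he0' : e = 0 := by omega
          rw [he0', zero_mul, pow_zero, one_mul] at hupp
          have h1 : 2 ^ (q * p) ≤ 2 ^ p * b ^ q :=
            (Nat.pow_le_pow_left hb1two _).trans (hupp.trans (Nat.mul_le_mul_right _ h2p))
          calc 3 ^ (q * p) ≤ 4 ^ (q * p) := Nat.pow_le_pow_left (by norm_num) _
            _ = (2 ^ (q * p)) ^ 2 := by
              rw [show (4 : ℕ) = 2 ^ 2 by norm_num, ← pow_mul, ← pow_mul, mul_comm]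
            _ ≤ (2 ^ p * b ^ q) ^ 2 := Nat.pow_le_pow_left h1 2
            _ = b ^ (2 * q) * 2 ^ (2 * p) := by ring
            _ ≤ b ^ (2 * q) * 2 ^ (q * p) := by
              apply Nat.mul_le_mul_left
              exact Nat.pow_le_pow_right (by norm_num) (Nat.mul_le_mul_right _ hq2)
        · have he1' : e = 1 := by omega
          have hpb1 : p ≤ b1 := Nat.le_of_dvd hb1 (he1 he1')
          rw [he1', one_mul] at hupp
          have h1 : p ^ (q * p) ≤ p ^ p * (2 ^ p * b ^ q) :=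
            (Nat.pow_le_pow_left hpb1 _).trans
              (hupp.trans (Nat.mul_le_mul_left _ (Nat.mul_le_mul_right _ h2p)))
          have h2 : p ^ ((q - 1) * p) ≤ 2 ^ p * b ^ q := by
            have h3 : p ^ (q * p) = p ^ p * p ^ ((q - 1) * p) := by
              rw [← pow_add]
              congr 1
              obtain ⟨k, rfl⟩ : ∃ k, q = k + 1 := ⟨q - 1, by omega⟩
              rw [Nat.add_sub_cancel]
              ring
            rw [h3] at h1
            exact Nat.le_of_mul_le_mul_left h1 (Nat.pow_pos hp.pos)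
          have h4 : 3 ^ ((q - 1) * p) ≤ 2 ^ p * b ^ q := (Nat.pow_le_pow_left hp3 _).trans h2
          calc 3 ^ (q * p) ≤ 3 ^ ((q - 1) * p * 2) := by
                apply Nat.pow_le_pow_right (by norm_num)
                calc q * p ≤ ((q - 1) * 2) * p := Nat.mul_le_mul_right _ (by omega)
                  _ = (q - 1) * p * 2 := by ring
            _ = (3 ^ ((q - 1) * p)) ^ 2 := pow_mul _ _ _
            _ ≤ (2 ^ p * b ^ q) ^ 2 := Nat.pow_le_pow_left h4 2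
            _ = b ^ (2 * q) * 2 ^ (2 * p) := by ring
            _ ≤ b ^ (2 * q) * 2 ^ (q * p) := by
              apply Nat.mul_le_mul_left
              exact Nat.pow_le_pow_right (by norm_num) (Nat.mul_le_mul_right _ hq2)
      have key2 : (3 ^ p) ^ q ≤ (2 ^ p * b ^ 2) ^ q := by
        calc (3 ^ p) ^ q = 3 ^ (q * p) := by rw [← pow_mul, mul_comm]
          _ ≤ b ^ (2 * q) * 2 ^ (q * p) := key
          _ = (2 ^ p * b ^ 2) ^ q := by rw [mul_pow, ← pow_mul, ← pow_mul, mul_comm p q]; ring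
      exact le_of_pow_le_pow_left₀ hqne (Nat.zero_le _) key2
  · intro l _ hlb
    refine ⟨fun h1 => hpb2 (h1 ▸ hlb), ?_⟩
    rw [hG]
    exact (dvd_pow (Int.natCast_dvd_natCast.2 hlb) hqne).mul_left _

theorem ss_of_solution {p q x y b : ℕ} (hp : p.Prime) (hp2 : p ≠ 2) (hq : 1 ≤ q)
    (hxy : Nat.Coprime x y) (hx : 0 < x) (hy : 0 < y) (h : b ^ q = x ^ p + y ^ p) :
    ∃ b1 b2 : ℕ, SS p b b1 b2 := by
  obtain ⟨b1, b2, h1, _⟩ := ss_of_solution' hp hp2 hq hxy hx hy h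
  exact ⟨b1, b2, h1⟩

lemma prime_dvd_GG_pow {p : ℕ} (hp : p.Prime) {n : ℕ} {x y : ℤ} (hxy : IsCoprime x y) {l : ℕ}
    (hl : l.Prime) (hlp : l ≠ p) (h2 : (l : ℤ) ∣ GG p (x ^ p ^ n) (y ^ p ^ n)) :
    l % p ^ (n + 1) = 1 := by
  have hXY : IsCoprime (x ^ p ^ n) (y ^ p ^ n) := hxy.pow
  have h1 : ¬ (l : ℤ) ∣ x ^ p ^ n - y ^ p ^ n := fun h => hlp (prime_dvd_both hp hXY hl h h2)
  have : Fact l.Prime := ⟨hl⟩
  have : Fact p.Prime := ⟨hp⟩
  have hl' : Prime (l : ℤ) := Nat.prime_iff_prime_int.1 hl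
  have hpow : ((x : ZMod l) ^ p ^ n) ^ p = ((y : ZMod l) ^ p ^ n) ^ p := by
    have h3 : (l : ℤ) ∣ (x ^ p ^ n) ^ p - (y ^ p ^ n) ^ p := by
      rw [← GG_mul]
      exact h2.mul_right _
    have h4 := (ZMod.intCast_zmod_eq_zero_iff_dvd ((x ^ p ^ n) ^ p - (y ^ p ^ n) ^ p) l).2 h3
    push_cast at h4
    exact sub_eq_zero.1 h4
  rw [← pow_mul, ← pow_mul, ← pow_succ] at hpow
  have hne : (x : ZMod l) ^ p ^ n ≠ (y : ZMod l) ^ p ^ n := by
    intro h
    apply h1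
    rw [← ZMod.intCast_zmod_eq_zero_iff_dvd]
    push_cast
    rw [h, sub_self]
  have hpn : p ^ (n + 1) ≠ 0 := (Nat.pow_pos hp.pos).ne'
  have hy0 : (y : ZMod l) ≠ 0 := by
    intro h
    rw [h, zero_pow hpn] at hpow
    have hx0 : (x : ZMod l) = 0 := by
      by_contra hc
      exact pow_ne_zero _ hc hpow
    have e1 : (l : ℤ) ∣ x := (ZMod.intCast_zmod_eq_zero_iff_dvd x l).1 hx0
    have e2 : (l : ℤ) ∣ y := (ZMod.intCast_zmod_eq_zero_iff_dvd y l).1 h
    exact hl'.not_isUnit (hxy.isUnit_of_dvd' e1 e2)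
  have hx0 : (x : ZMod l) ≠ 0 := by
    intro h
    rw [h, zero_pow hpn] at hpow
    exact pow_ne_zero _ hy0 hpow.symm
  set t : ZMod l := (x : ZMod l) / y with ht
  have ht1 : t ^ p ^ (n + 1) = 1 := by
    rw [ht, div_pow, hpow, div_self (pow_ne_zero _ hy0)]
  have ht2 : ¬ t ^ p ^ n = 1 := by
    intro h
    rw [ht, div_pow, div_eq_one_iff_eq (pow_ne_zero _ hy0)] at h
    exact hne h
  have hord : orderOf t = p ^ (n + 1) := orderOf_eq_prime_pow ht2 ht1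
  have ht0 : t ≠ 0 := div_ne_zero hx0 hy0
  have hdvd : p ^ (n + 1) ∣ l - 1 := by
    rw [← hord]
    exact orderOf_dvd_of_pow_eq_one (ZMod.pow_card_sub_one_eq_one ht0)
  obtain ⟨c, hc⟩ := hdvd
  have h5 : l = p ^ (n + 1) * c + 1 := by
    have := hl.one_le
    omega
  rw [h5, Nat.mul_add_mod, Nat.mod_eq_of_lt (Nat.one_lt_pow (by omega) hp.one_lt)]

/-- the structure for a prime power exponent -/
theorem ss_pow {p n q x y b : ℕ} (hp : p.Prime) (hp2 : p ≠ 2) (hq : 1 ≤ q)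
    (hxy : Nat.Coprime x y) (hx : 0 < x) (hy : 0 < y)
    (h : b ^ q = x ^ p ^ (n + 1) + y ^ p ^ (n + 1)) :
    ∃ b1 b2 : ℕ, SS p b b1 b2 ∧ ∀ l : ℕ, l.Prime → l ∣ b2 → l % p ^ (n + 1) = 1 := by
  obtain ⟨b1, b2, h1, h2⟩ := ss_of_solution' (x := x ^ p ^ n) (y := y ^ p ^ n) hp hp2 hq
    (hxy.pow _ _) (Nat.pow_pos hx) (Nat.pow_pos hy) (by
      rw [h, ← pow_mul, ← pow_mul, ← pow_succ])
  refine ⟨b1, b2, h1, fun l hl hlb => ?_⟩
  obtain ⟨h3, h4⟩ := h2 l hl hlb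
  have hodd : Odd (p ^ n) := (hp.odd_of_ne_two hp2).pow
  apply prime_dvd_GG_pow hp (x := (x : ℤ)) (y := -(y : ℤ)) (n := n)
    ((Nat.isCoprime_iff_coprime.2 hxy).neg_right) hl h3
  rw [hodd.neg_pow]
  push_cast at h4
  exact h4

/-- the odd prime divisors of a base of a sum of two coprime `2 ^ s`-th powers -/
theorem even_case {s q x y b : ℕ} (hxy : Nat.Coprime x y) (h : b ^ q = x ^ 2 ^ s + y ^ 2 ^ s)
    (hq : q ≠ 0) : ∀ l : ℕ, l.Prime → l ∣ b → l = 2 ∨ l % 2 ^ (s + 1) = 1 := by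
  intro l hl hlb
  by_cases hl2 : l = 2
  · exact Or.inl hl2
  right
  have h1 : l ∣ x ^ 2 ^ s + y ^ 2 ^ s := by
    rw [← h]
    exact dvd_pow hlb hq
  have : Fact l.Prime := ⟨hl⟩
  have hs0 : 2 ^ s ≠ 0 := by positivity
  have hy : ((y : ℕ) : ZMod l) ≠ 0 := by
    intro hy
    have hy' : l ∣ y := (ZMod.natCast_eq_zero_iff _ _).1 hy
    have hx' : l ∣ x := by
      have h2 : l ∣ x ^ 2 ^ s := (Nat.dvd_add_left (dvd_pow hy' hs0)).1 h1
      exact hl.dvd_of_dvd_pow h2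
    exact hl.not_dvd_one (hxy ▸ Nat.dvd_gcd hx' hy')
  have h2 : ((x : ℕ) : ZMod l) ^ 2 ^ s + ((y : ℕ) : ZMod l) ^ 2 ^ s = 0 := by
    have := (ZMod.natCast_eq_zero_iff _ _).2 h1
    push_cast at this
    exact this
  set t : ZMod l := (x : ZMod l) / y with ht
  have ht1 : t ^ 2 ^ s = -1 := by
    rw [ht, div_pow, eq_neg_of_add_eq_zero_left h2, neg_div, div_self (pow_ne_zero _ hy)]
  have hne : (-1 : ZMod l) ≠ 1 := by
    have : Fact (2 < l) := ⟨by
      have := hl.two_le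
      omega⟩
    exact ZMod.neg_one_ne_one
  have ht2 : ¬ t ^ 2 ^ s = 1 := by
    rw [ht1]
    exact hne
  have ht3 : t ^ 2 ^ (s + 1) = 1 := by
    rw [pow_succ, pow_mul, ht1]
    norm_num
  have hord : orderOf t = 2 ^ (s + 1) := orderOf_eq_prime_pow ht2 ht3
  have ht0 : t ≠ 0 := by
    intro h0
    rw [h0, zero_pow (by positivity)] at ht3
    exact zero_ne_one ht3
  have hdvd : 2 ^ (s + 1) ∣ l - 1 := by
    rw [← hord]
    exact orderOf_dvd_of_pow_eq_one (ZMod.pow_card_sub_one_eq_one ht0)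
  obtain ⟨c, hc⟩ := hdvd
  have h5 : l = 2 ^ (s + 1) * c + 1 := by
    have := hl.one_le
    omega
  rw [h5, Nat.mul_add_mod, Nat.mod_eq_of_lt (Nat.one_lt_pow (by omega) (by norm_num))]

end Pool.Agent.Q15.SP
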