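import Mathlib
import Pool.Agent.Q15.SP.Str
import Pool.Agent.Q15.SP.Lam

/-!
The window for the first factor, and the count for one prime exponent.
-/

set_option autoImplicit false

namespace Pool.Agent.Q15.SP

open Finset Real
open scoped ArithmeticFunction.vonMangoldt

lemma harm {a M : ℕ} (ha : 1 ≤ a) (h : a ≤ M) :
    ∑ w ∈ Icc a M, (1 : ℝ) / w ≤ 1 + Real.log ((M : ℝ) / a) := by
  have ha0 : (0 : ℝ) < a := by exact_mod_cast ha
  induction M, h using Nat.le_induction with
  | base =>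
    rw [Finset.Icc_self, Finset.sum_singleton, div_self ha0.ne', Real.log_one, add_zero]
    rw [div_le_one ha0]
    exact_mod_cast ha
  | succ M hM ih =>
    have hM0 : (0 : ℝ) < M := by exact_mod_cast (by omega : 0 < M)
    rw [Finset.sum_Icc_succ_top (by omega)]
    have h1 := Real.one_sub_inv_le_log_of_pos (x := ((M + 1 : ℕ) : ℝ) / M) (by positivity)
    have h2 : Real.log (((M + 1 : ℕ) : ℝ) / a) = Real.log ((M : ℝ) / a) +
        Real.log (((M + 1 : ℕ) : ℝ) / M) := by
      rw [← Real.log_mul (by positivity) (by positivity)]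
      congr 1
      field_simp
    have h3 : (1 : ℝ) / ((M + 1 : ℕ) : ℝ) = 1 - (((M + 1 : ℕ) : ℝ) / M)⁻¹ := by
      push_cast
      field_simp
      ring
    rw [h2, h3]
    linarith

/-- the window -/
def Wn (p N : ℕ) : Finset ℕ :=
  (Icc 1 N).filter (fun w => N ≤ 2 * w ^ p ∧ w ^ p ≤ (2 * p) ^ p * N)

lemma sum_Wn {p N : ℕ} (hp : 1 ≤ p) : ∑ w ∈ Wn p N, (1 : ℝ) / w ≤ 1 + Real.log (4 * p) := by
  have hpR : (1 : ℝ) ≤ p := by exact_mod_cast hp
  rcases Finset.eq_empty_or_nonempty (Wn p N) with h0 | h0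
  · rw [h0, Finset.sum_empty]
    have : 0 ≤ Real.log (4 * p) := Real.log_nonneg (by linarith)
    linarith
  · obtain ⟨a, ha⟩ : ∃ a, a = (Wn p N).min' h0 := ⟨_, rfl⟩
    obtain ⟨M, hM⟩ : ∃ M, M = (Wn p N).max' h0 := ⟨_, rfl⟩
    have haW : a ∈ Wn p N := ha ▸ Finset.min'_mem _ _
    have hMW : M ∈ Wn p N := hM ▸ Finset.max'_mem _ _
    have hsub : Wn p N ⊆ Icc a M := by
      intro w hw
      rw [Finset.mem_Icc, ha, hM]
      exact ⟨Finset.min'_le _ _ hw, Finset.le_max' _ _ hw⟩
    rw [Wn, Finset.mem_filter, Finset.mem_Icc] at haW hMW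
    have haM : a ≤ M := by
      rw [ha, hM]
      exact Finset.min'_le_max' _ _
    have ha1 := haW.1.1
    have ha0 : (0 : ℝ) < a := by exact_mod_cast ha1
    have hM0 : (0 : ℝ) < M := by exact_mod_cast hMW.1.1
    have h1 : M ^ p ≤ (4 * p * a) ^ p := by
      calc M ^ p ≤ (2 * p) ^ p * N := hMW.2.2
        _ ≤ (2 * p) ^ p * (2 * a ^ p) := Nat.mul_le_mul_left _ haW.2.1
        _ ≤ (2 * p) ^ p * (2 ^ p * a ^ p) := by
          apply Nat.mul_le_mul_left
          apply Nat.mul_le_mul_right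
          exact Nat.le_self_pow (by omega) _
        _ = (4 * p * a) ^ p := by
          rw [← mul_pow, ← mul_pow]
          congr 1
          ring
    have h2 : M ≤ 4 * p * a := le_of_pow_le_pow_left₀ (by omega) (Nat.zero_le _) h1
    have h3 : (M : ℝ) / a ≤ 4 * p := by
      rw [div_le_iff₀ ha0]
      exact_mod_cast h2
    calc ∑ w ∈ Wn p N, (1 : ℝ) / w ≤ ∑ w ∈ Icc a M, (1 : ℝ) / w :=
          Finset.sum_le_sum_of_subset_of_nonneg hsub (fun w _ _ => by positivity)
      _ ≤ 1 + Real.log ((M : ℝ) / a) := harm ha1 haM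
      _ ≤ 1 + Real.log (4 * p) := by
        have := Real.log_le_log (by positivity) h3
        linarith

/-- the residue class condition -/
def GP (p : ℕ) (l : ℕ) : Prop := l % p = 1

/-- `b` is a base of a sum of two coprime `p`-th powers -/
def Bs (p b : ℕ) : Prop := ∃ x y q : ℕ, 0 < x ∧ 0 < y ∧ Nat.Coprime x y ∧
    1 ≤ q ∧ b ^ q = x ^ p + y ^ p

/-- bases `b`, `N / 2 < b ≤ N` of sums of two coprime `p`-th powers -/
noncomputable def EB (p N : ℕ) : Finset ℕ := by
  classical
  exact (Icc 1 N).filter (fun b => N < 2 * b ∧ Bs p b)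

lemma mem_EB {p N b : ℕ} : b ∈ EB p N ↔ (1 ≤ b ∧ b ≤ N) ∧ N < 2 * b ∧ Bs p b := by
  classical
  unfold EB
  rw [Finset.mem_filter, Finset.mem_Icc]

theorem card_EB' {p Q N : ℕ} (hp3 : 3 ≤ p)
    (hst : ∀ b : ℕ, Bs Q b → ∃ b1 b2 : ℕ, SS p b b1 b2 ∧ AllG (GP Q) b2)
    {K S : ℝ} (hK : 0 ≤ K)
    (hψ : ∀ X : ℕ, ∑ d ∈ SG (GP Q) X, Λ d ≤ K * X) (hS : ∑ m ∈ SG (GP Q) N, (1 : ℝ) / m ≤ S) :
    ((EB Q N).card : ℝ) * (2 / 3 * Real.log N - Real.log (4 * p)) ≤
      K * N * (1 + Real.log (4 * p)) * S := by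
  have hpR : (3 : ℝ) ≤ p := by exact_mod_cast hp3
  have h := lam (G := GP Q) (N := N) (W := Wn p N) (E := EB Q N)
    (L := 2 / 3 * Real.log N - Real.log (4 * p)) (fun w hw => by
      rw [Wn, Finset.mem_filter, Finset.mem_Icc] at hw
      exact hw.1.1) hK hψ (by
      intro b hb
      rw [mem_EB] at hb
      obtain ⟨⟨hb1, hbN⟩, hN2, hBs⟩ := hb
      obtain ⟨b1, b2, hs, hone⟩ := hst b hBs
      refine ⟨hbN, b1, ?_, b2, hs.hb, hs.h2, hone, ?_⟩
      · rw [Wn, Finset.mem_filter, Finset.mem_Icc]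
        refine ⟨⟨hs.h1, ?_⟩, ?_, ?_⟩
        · refine le_trans ?_ hbN
          rw [hs.hb]
          exact Nat.le_mul_of_pos_right _ hs.h2
        · have := hs.lo
          omega
        · exact hs.up.trans (Nat.mul_le_mul_left _ hbN)
      · have hbR : (0 : ℝ) < b := by exact_mod_cast hb1
        have hb1R : (0 : ℝ) < b1 := by exact_mod_cast hs.h1
        have hb2R : (0 : ℝ) < b2 := by exact_mod_cast hs.h2
        have hN0 : (0 : ℝ) < N := by exact_mod_cast (by omega : 0 < N)
        have hbe : Real.log b = Real.log b1 + Real.log b2 := by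
          rw [hs.hb]
          push_cast
          exact Real.log_mul hb1R.ne' hb2R.ne'
        have h1 : (p : ℝ) * Real.log b1 ≤ p * Real.log (2 * p) + Real.log N := by
          have h2 : ((b1 : ℝ)) ^ p ≤ (2 * p) ^ p * N := by
            have h3 : (b1 ^ p) ≤ (2 * p) ^ p * N := hs.up.trans (Nat.mul_le_mul_left _ hbN)
            exact_mod_cast h3
          have h3 := Real.log_le_log (by positivity) h2
          rw [Real.log_pow, Real.log_mul (by positivity) hN0.ne', Real.log_pow] at h3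
          exact h3
        have hlN : 0 ≤ Real.log N := Real.log_nonneg (by exact_mod_cast (by omega : 1 ≤ N))
        have h2 : Real.log b1 ≤ Real.log (2 * p) + Real.log N / 3 := by
          have hp0 : (0 : ℝ) < p := by linarith
          have h3 : (p : ℝ) * Real.log b1 ≤ p * (Real.log (2 * p) + Real.log N / 3) := by
            have h4 : Real.log N ≤ p * (Real.log N / 3) := by
              have : 3 * (Real.log N / 3) ≤ p * (Real.log N / 3) :=
                mul_le_mul_of_nonneg_right hpR (by positivity)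
              linarith
            linarith
          exact le_of_mul_le_mul_left h3 hp0
        have h3 : Real.log N - Real.log 2 ≤ Real.log b := by
          rw [← Real.log_div hN0.ne' (by norm_num)]
          apply Real.log_le_log (by positivity)
          have : (N : ℝ) < 2 * b := by exact_mod_cast hN2
          linarith
        have h4 : Real.log (4 * p) = Real.log 2 + Real.log (2 * p) := by
          rw [← Real.log_mul (by norm_num) (by positivity)]
          congr 1
          ring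
        rw [h4]
        linarith)
  refine h.trans ?_
  have hlp : 0 ≤ Real.log (4 * p) := Real.log_nonneg (by linarith)
  have hWS : 0 ≤ ∑ w ∈ Wn p N, (1 : ℝ) / w := Finset.sum_nonneg fun w _ => by positivity
  have hMS : 0 ≤ ∑ m ∈ SG (GP Q) N, (1 : ℝ) / m := Finset.sum_nonneg fun m _ => by positivity
  calc K * N * (∑ w ∈ Wn p N, (1 : ℝ) / w) * ∑ m ∈ SG (GP Q) N, (1 : ℝ) / m ≤
      K * N * (1 + Real.log (4 * p)) * ∑ m ∈ SG (GP Q) N, (1 : ℝ) / m := by
        apply mul_le_mul_of_nonneg_right _ hMS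
        exact mul_le_mul_of_nonneg_left (sum_Wn (by omega)) (by positivity)
    _ ≤ _ := mul_le_mul_of_nonneg_left hS (by positivity)

theorem card_EB {p N : ℕ} (hp : p.Prime) (hp2 : p ≠ 2) {K S : ℝ} (hK : 0 ≤ K)
    (hψ : ∀ X : ℕ, ∑ d ∈ SG (GP p) X, Λ d ≤ K * X) (hS : ∑ m ∈ SG (GP p) N, (1 : ℝ) / m ≤ S) :
    ((EB p N).card : ℝ) * (2 / 3 * Real.log N - Real.log (4 * p)) ≤
      K * N * (1 + Real.log (4 * p)) * S := by
  refine card_EB' (by have := hp.two_le; omega) (fun b hb => ?_) hK hψ hS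
  obtain ⟨x, y, q, hx, hy, hxy, hq, he⟩ := hb
  obtain ⟨b1, b2, hs⟩ := ss_of_solution hp hp2 hq hxy hx hy he
  exact ⟨b1, b2, hs, hs.one⟩

/-- Chebyshev -/
theorem cheb (G : ℕ → Prop) (X : ℕ) : ∑ d ∈ SG G X, Λ d ≤ (Real.log 4 + 4) * X := by
  classical
  have h1 : Chebyshev.psi (X : ℝ) ≤ (Real.log 4 + 4) * X :=
    Chebyshev.psi_le_const_mul_self (Nat.cast_nonneg _)
  refine le_trans ?_ h1
  rw [Chebyshev.psi_eq_sum_Icc, Nat.floor_natCast]
  apply Finset.sum_le_sum_of_subset_of_nonneg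
  · intro m hm
    have := mem_SG.1 hm
    rw [Finset.mem_Icc]
    omega
  · intro m _ _
    exact ArithmeticFunction.vonMangoldt_nonneg

end Pool.Agent.Q15.SP
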