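import Mathlib
import Pool.Agent.Q15.SP.Win
import Pool.Agent.TH863.D.DCount

/-!
Large prime exponents.
-/

set_option autoImplicit false

namespace Pool.Agent.Q15.SP

open Finset Real
open scoped ArithmeticFunction.vonMangoldt

lemma GP_mod {p : ℕ} (hp : 1 < p) : ∀ d : ℕ, 1 ≤ d → AllG (GP p) d → d % p = 1 := by
  intro d
  induction d using Nat.strong_induction_on with
  | _ d ih =>
    intro hd hG
    rcases Nat.lt_or_ge 1 d with h1 | h1
    · obtain ⟨l, hl, m, rfl⟩ := Nat.exists_prime_and_dvd (n := d) (by omega)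
      have hm : 0 < m := by
        rcases Nat.eq_zero_or_pos m with h0 | h0
        · rw [h0] at hd; simp at hd
        · exact h0
      have h2 := hG l hl (Dvd.intro _ rfl)
      have h3 := ih m (by
        have := hl.two_le
        nlinarith) hm (hG.of_dvd (Dvd.intro_left l rfl))
      unfold GP at h2
      rw [Nat.mul_mod, h2, h3, one_mul, Nat.mod_eq_of_lt hp]
    · have : d = 1 := by omega
      rw [this, Nat.mod_eq_of_lt hp]

lemma card_one_mod {p X : ℕ} (hp : 1 < p) {T : Finset ℕ}
    (hT : ∀ d ∈ T, 1 < d ∧ d ≤ X ∧ d % p = 1) : (T.card : ℝ) ≤ X / p := by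
  have h1 : T.card ≤ (Icc 1 (X / p)).card := by
    apply Finset.card_le_card_of_injOn (fun d => d / p)
    · intro d hd
      obtain ⟨h2, h3, h4⟩ := hT d hd
      rw [Finset.mem_coe, Finset.mem_Icc]
      show 1 ≤ d / p ∧ d / p ≤ X / p
      refine ⟨?_, Nat.div_le_div_right h3⟩
      have h5 := Nat.div_add_mod d p
      by_contra hc
      have h6 : d / p = 0 := Nat.eq_zero_of_not_pos hc
      rw [h6, h4] at h5
      omega
    · intro d hd e he h
      have h5 := Nat.div_add_mod d p
      have h6 := Nat.div_add_mod e p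
      simp only at h
      rw [(hT d hd).2.2] at h5
      rw [(hT e he).2.2] at h6
      rw [← h5, ← h6, h]
  rw [Nat.card_Icc, Nat.add_sub_cancel] at h1
  exact (by exact_mod_cast h1 : (T.card : ℝ) ≤ ((X / p : ℕ) : ℝ)).trans Nat.cast_div_le

theorem psi_big : ∃ (C : ℝ) (P0 : ℕ), 0 ≤ C ∧ 3 ≤ P0 ∧ ∀ p : ℕ, p.Prime → P0 ≤ p → ∀ X : ℕ,
    ∑ d ∈ SG (GP p) X, Λ d ≤ C * (Real.log p / p) * X := by
  classical
  obtain ⟨Z, hZ3, hZ⟩ := Pool.Agent.H617R3.BT.bt 1 one_pos
  obtain ⟨C1, hC1⟩ := Chebyshev.psi_sub_theta_le_mul_sqrt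
  refine ⟨9 + |C1|, ⌈Z⌉₊ + 3, by positivity, by omega, fun p hp hpP X => ?_⟩
  have hp3 : 3 ≤ p := by omega
  have hpR : (3 : ℝ) ≤ p := by exact_mod_cast hp3
  have hp0 : (0 : ℝ) < p := by linarith
  have hpZ : Z ≤ p := (Nat.le_ceil Z).trans (by exact_mod_cast (by omega : ⌈Z⌉₊ ≤ p))
  have hlp : 1 ≤ Real.log p := by
    rw [Real.le_log_iff_exp_le hp0]
    have := Real.exp_one_lt_d9
    linarith
  have hX0 : (0 : ℝ) ≤ X := Nat.cast_nonneg _
  -- nonvanishing terms
  rcases Nat.lt_or_ge X (p ^ 3) with hX | hX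
  · have h1 : ∑ d ∈ SG (GP p) X, Λ d = ∑ d ∈ (SG (GP p) X).filter (fun d => 1 < d), Λ d := by
      symm
      apply Finset.sum_filter_of_ne
      intro d hd hne
      have h2 := (mem_SG.1 hd).1.1
      by_contra hc
      have : d = 1 := by omega
      rw [this] at hne
      simp at hne
    rw [h1]
    have h2 : ((((SG (GP p) X).filter (fun d => 1 < d)).card : ℕ) : ℝ) ≤ X / p := by
      apply card_one_mod hp.one_lt
      intro d hd
      rw [Finset.mem_filter, mem_SG] at hd
      exact ⟨hd.2, hd.1.1.2, GP_mod hp.one_lt d hd.1.1.1 hd.1.2⟩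
    have h3 : ∀ d ∈ (SG (GP p) X).filter (fun d => 1 < d), Λ d ≤ 3 * Real.log p := by
      intro d hd
      rw [Finset.mem_filter, mem_SG] at hd
      refine ArithmeticFunction.vonMangoldt_le_log.trans ?_
      have h4 : (d : ℝ) ≤ (p : ℝ) ^ 3 := by exact_mod_cast hd.1.1.2.trans hX.le
      have h5 : (0 : ℝ) < d := by exact_mod_cast hd.1.1.1
      have h6 := Real.log_le_log h5 h4
      rw [Real.log_pow] at h6
      exact_mod_cast h6
    calc ∑ d ∈ (SG (GP p) X).filter (fun d => 1 < d), Λ d ≤
        ∑ _d ∈ (SG (GP p) X).filter (fun d => 1 < d), 3 * Real.log p := Finset.sum_le_sum h3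
      _ = (((SG (GP p) X).filter (fun d => 1 < d)).card : ℝ) * (3 * Real.log p) := by
        rw [Finset.sum_const, nsmul_eq_mul]
      _ ≤ X / p * (3 * Real.log p) := mul_le_mul_of_nonneg_right h2 (by positivity)
      _ = 3 * (Real.log p / p) * X := by ring
      _ ≤ (9 + |C1|) * (Real.log p / p) * X := by
        apply mul_le_mul_of_nonneg_right _ hX0
        apply mul_le_mul_of_nonneg_right _ (by positivity)
        have := abs_nonneg C1
        linarith
  · have hXR : (p : ℝ) ^ 3 ≤ X := by exact_mod_cast hX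
    have hXpos : (0 : ℝ) < X := by
      have : (0 : ℝ) < (p : ℝ) ^ 3 := by positivity
      linarith
    have hX1 : (1 : ℝ) ≤ X := by
      have : (1 : ℝ) ≤ (p : ℝ) ^ 3 := one_le_pow₀ (by linarith)
      linarith
    rw [← Finset.sum_filter_add_sum_filter_not (SG (GP p) X) Nat.Prime]
    -- primes
    have hlogX : 0 ≤ Real.log X := Real.log_nonneg hX1
    have hXp : (p : ℝ) ^ 2 ≤ X / p := by
      rw [le_div_iff₀ hp0]
      calc (p : ℝ) ^ 2 * p = (p : ℝ) ^ 3 := by ring
        _ ≤ (X : ℝ) := hXR
    have hZX : Z ≤ X / p := by nlinarith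
    have hlog : 2 / 3 * Real.log X ≤ Real.log (X / p) := by
      rw [Real.log_div hXpos.ne' hp0.ne']
      have h1 := Real.log_le_log (by positivity) hXR
      rw [Real.log_pow] at h1
      push_cast at h1
      linarith
    have hlogX0 : 0 < Real.log X := Real.log_pos (by
      have : (1 : ℝ) < (p : ℝ) ^ 3 := one_lt_pow₀ (by linarith) (by norm_num)
      linarith)
    have hprime : ∑ d ∈ (SG (GP p) X).filter Nat.Prime, Λ d ≤ 9 * (X / p) := by
      have h1 : ((((SG (GP p) X).filter Nat.Prime).card : ℕ) : ℝ) ≤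
          (2 + 1) * X / ((Nat.totient p : ℝ) * Real.log (X / p)) := by
        have h2 : (SG (GP p) X).filter Nat.Prime ⊆ Pool.Agent.H617R3.BT.pf X X p 1 := by
          intro l hl
          rw [Finset.mem_filter, mem_SG] at hl
          obtain ⟨⟨⟨h3, h4⟩, h5⟩, h6⟩ := hl
          rw [Pool.Agent.H617R3.BT.mem_pf]
          refine ⟨h6, ?_, by exact_mod_cast h4, ?_⟩
          · rw [sub_self]
            exact_mod_cast h6.pos
          · have h7 : ((l % p : ℕ) : ℤ) = 1 := by
              rw [GP_mod hp.one_lt l h3 h5]; rfl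
            rw [Int.ModEq]
            push_cast at h7
            rw [h7, Int.emod_eq_of_lt (by norm_num) (by exact_mod_cast hp.one_lt)]
        have h3 := Finset.card_le_card h2
        rw [← Pool.Agent.H617R3.BT.cnt_eq] at h3
        exact (by exact_mod_cast h3 : _ ≤ ((Pool.Agent.H617R3.BT.cnt X X p 1 : ℕ) : ℝ)).trans
          (hZ p 1 X X hp.one_le hZX)
      have htot : (p : ℝ) / 2 ≤ (Nat.totient p : ℝ) := by
        rw [Nat.totient_prime hp, Nat.cast_sub hp.one_le]
        push_cast
        linarith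
      have h5 : (p : ℝ) / 2 * (2 / 3 * Real.log X) ≤ (Nat.totient p : ℝ) * Real.log (X / p) :=
        mul_le_mul htot hlog (by positivity) (Nat.cast_nonneg _)
      have h6 : ((((SG (GP p) X).filter Nat.Prime).card : ℕ) : ℝ) ≤ 9 * (X / p) / Real.log X := by
        refine h1.trans ?_
        calc (2 + 1) * (X : ℝ) / ((Nat.totient p : ℝ) * Real.log (X / p)) ≤
            (2 + 1) * X / ((p : ℝ) / 2 * (2 / 3 * Real.log X)) :=
              div_le_div_of_nonneg_left (by positivity) (by positivity) h5
          _ = _ := by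
              field_simp
              ring
      calc ∑ d ∈ (SG (GP p) X).filter Nat.Prime, Λ d ≤
          ∑ _d ∈ (SG (GP p) X).filter Nat.Prime, Real.log X := by
            refine Finset.sum_le_sum fun d hd => ?_
            rw [Finset.mem_filter, mem_SG] at hd
            refine ArithmeticFunction.vonMangoldt_le_log.trans ?_
            exact Real.log_le_log (by exact_mod_cast hd.1.1.1) (by exact_mod_cast hd.1.1.2)
        _ = (((SG (GP p) X).filter Nat.Prime).card : ℝ) * Real.log X := by
            rw [Finset.sum_const, nsmul_eq_mul]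
        _ ≤ 9 * (X / p) / Real.log X * Real.log X := mul_le_mul_of_nonneg_right h6 hlogX
        _ = 9 * (X / p) := by field_simp
    have hnot : ∑ d ∈ (SG (GP p) X).filter (fun d => ¬ d.Prime), Λ d ≤ |C1| * (X / p) := by
      have h1 : ∑ d ∈ (SG (GP p) X).filter (fun d => ¬ d.Prime), Λ d ≤
          Chebyshev.psi (X : ℝ) - Chebyshev.theta (X : ℝ) := by
        rw [Chebyshev.psi_sub_theta_eq_sum_not_prime, Nat.floor_natCast]
        apply Finset.sum_le_sum_of_subset_of_nonneg
        · intro m hm
          rw [Finset.mem_filter, mem_SG] at hm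
          rw [Finset.mem_filter, Finset.mem_Ioc]
          exact ⟨⟨by omega, hm.1.1.2⟩, hm.2⟩
        · intro m _ _
          exact ArithmeticFunction.vonMangoldt_nonneg
      refine h1.trans ((hC1 X).trans ?_)
      have h2 : Real.sqrt X ≤ X / p := by
        rw [le_div_iff₀ hp0]
        have h3 : (p : ℝ) ≤ Real.sqrt X := by
          apply Real.le_sqrt_of_sq_le
          refine le_trans ?_ hXR
          exact pow_le_pow_right₀ (by linarith) (by norm_num)
        calc Real.sqrt X * p ≤ Real.sqrt X * Real.sqrt X :=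
              mul_le_mul_of_nonneg_left h3 (Real.sqrt_nonneg _)
          _ = X := Real.mul_self_sqrt hX0
      calc C1 * Real.sqrt X ≤ |C1| * Real.sqrt X :=
            mul_le_mul_of_nonneg_right (le_abs_self _) (Real.sqrt_nonneg _)
        _ ≤ |C1| * (X / p) := mul_le_mul_of_nonneg_left h2 (abs_nonneg _)
    calc _ ≤ 9 * ((X : ℝ) / p) + |C1| * (X / p) := add_le_add hprime hnot
      _ = (9 + |C1|) * (1 / p) * X := by ring
      _ ≤ (9 + |C1|) * (Real.log p / p) * X := by
        apply mul_le_mul_of_nonneg_right _ hX0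
        apply mul_le_mul_of_nonneg_left _ (by positivity)
        exact div_le_div_of_nonneg_right hlp hp0.le

open Pool.Agent.TH863.D in
theorem rec_big : ∃ P0 : ℕ, 3 ≤ P0 ∧ ∀ p : ℕ, p.Prime → P0 ≤ p → ∀ N : ℕ, 3 ≤ N →
    ∀ T : Finset ℕ, (∀ l ∈ T, l.Prime ∧ l ≤ N ∧ GP p l) →
    ∑ l ∈ T, (1 : ℝ) / l ≤ 145 + 288 / p * Real.log (Real.log N) := by
  classical
  obtain ⟨Z, hZ3, hZ⟩ := sum_WW
  refine ⟨⌈Z⌉₊ + 3, by omega, fun p hp hpP N hN T hT => ?_⟩
  have hp3 : 3 ≤ p := by omega
  have hpR : (3 : ℝ) ≤ p := by exact_mod_cast hp3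
  have hp0 : (0 : ℝ) < p := by linarith
  have hpZ : Z ≤ p := (Nat.le_ceil Z).trans (by exact_mod_cast (by omega : ⌈Z⌉₊ ≤ p))
  obtain ⟨z, hz⟩ : ∃ z : ℝ, z = (p : ℝ) ^ 2 := ⟨_, rfl⟩
  have hzZ : Z ≤ z := by rw [hz]; nlinarith
  have hz9 : 9 ≤ z := by rw [hz]; nlinarith
  have hlogz : 1 ≤ Real.log z := by
    rw [Real.le_log_iff_exp_le (by linarith)]
    have := Real.exp_one_lt_d9
    linarith
  -- the recursion
  have hrec : ∀ i N : ℕ, 3 ≤ N → (N : ℝ) ≤ z ^ (2 ^ i) →
      ∑ l ∈ WW p N z, (1 : ℝ) / l ≤ 144 * i / p := by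
    intro i
    induction i with
    | zero =>
      intro N hN hNz
      rw [pow_zero, pow_one] at hNz
      have h0 : WW p N z = ∅ := by
        rw [Finset.eq_empty_iff_forall_notMem]
        intro l hl
        obtain ⟨⟨⟨h1, h2⟩, h3, h4⟩, h5⟩ := mem_WW.1 hl
        have h6 : (l : ℝ) = (p : ℝ) ^ 2 := by
          rw [← hz]
          apply le_antisymm _ h5
          exact le_trans (by exact_mod_cast h2) hNz
        have h7 : l = p ^ 2 := by exact_mod_cast h6
        rw [h7, sq, Nat.mul_mod_right] at h4
        omega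
      rw [h0, Finset.sum_empty]
      simp
    | succ i ih =>
      intro N hN hNz
      rcases le_or_gt (N : ℝ) (z ^ (2 ^ i)) with h1 | h1
      · refine (ih N hN h1).trans ?_
        apply div_le_div_of_nonneg_right _ hp0.le
        push_cast
        linarith
      · obtain ⟨M, hM⟩ : ∃ M : ℕ, M = (p ^ 2) ^ (2 ^ i) := ⟨_, rfl⟩
        have hMz : (M : ℝ) = z ^ (2 ^ i) := by
          rw [hM, hz]
          push_cast
          rfl
        have hzM : z ≤ M := by
          rw [hMz]
          exact le_self_pow₀ (by linarith) (by positivity)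
        have hM3 : 3 ≤ M := by
          have : (3 : ℝ) ≤ M := by linarith
          exact_mod_cast this
        have hsub : WW p N z ⊆ WW p M z ∪ WW p N (M : ℝ) := by
          intro l hl
          obtain ⟨⟨⟨h2, h3⟩, h4, h5⟩, h6⟩ := mem_WW.1 hl
          rw [Finset.mem_union]
          rcases Nat.le_total l M with h7 | h7
          · exact Or.inl (mem_WW.2 ⟨⟨⟨h2, h7⟩, h4, h5⟩, h6⟩)
          · exact Or.inr (mem_WW.2 ⟨⟨⟨h2, h3⟩, h4, h5⟩, by exact_mod_cast h7⟩)
        have h2 : ∑ l ∈ WW p N z, (1 : ℝ) / l ≤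
            ∑ l ∈ WW p M z, (1 : ℝ) / l + ∑ l ∈ WW p N (M : ℝ), (1 : ℝ) / l := by
          refine (Finset.sum_le_sum_of_subset_of_nonneg hsub (fun l _ _ => by positivity)).trans ?_
          rw [← Finset.sum_union_inter]
          have : 0 ≤ ∑ l ∈ WW p M z ∩ WW p N (M : ℝ), (1 : ℝ) / l :=
            Finset.sum_nonneg fun l _ => by positivity
          linarith
        have h3 := ih M hM3 hMz.le
        have h4 := hZ p N M hp (hzZ.trans hzM) hN (by rw [← hz]; exact hzM)
        have hlogM : 0 < Real.log M := by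
          have := Real.log_le_log (by linarith) hzM
          linarith
        have h5 : Real.log N / Real.log M ≤ 2 := by
          rw [div_le_iff₀ hlogM]
          have hN0 : (0 : ℝ) < N := by exact_mod_cast (by omega : 0 < N)
          have h6 := Real.log_le_log hN0 hNz
          rw [pow_succ, pow_mul, Real.log_pow, ← hMz] at h6
          push_cast at h6
          exact h6
        have h6 : 72 * (Real.log N / Real.log M) / p ≤ 144 / p := by
          apply div_le_div_of_nonneg_right _ hp0.le
          linarith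
        calc _ ≤ _ := h2
          _ ≤ 144 * i / p + 144 / p := add_le_add h3 (h4.trans h6)
          _ = 144 * ((i + 1 : ℕ) : ℝ) / p := by push_cast; ring
  have hNR : (3 : ℝ) ≤ N := by exact_mod_cast hN
  have hN0 : (0 : ℝ) < N := by linarith
  have hlogN : 1 ≤ Real.log N := by
    rw [Real.le_log_iff_exp_le hN0]
    have := Real.exp_one_lt_d9
    linarith
  have hll : 0 ≤ Real.log (Real.log N) := Real.log_nonneg hlogN
  have hl2 : (1 : ℝ) / 2 ≤ Real.log 2 := by
    have := Real.log_two_gt_d9
    linarith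
  obtain ⟨i, hi⟩ : ∃ i : ℕ, i = ⌈Real.log (Real.log N) / Real.log 2⌉₊ := ⟨_, rfl⟩
  have hi1 : Real.log (Real.log N) / Real.log 2 ≤ i := by rw [hi]; exact Nat.le_ceil _
  have hi2 : (i : ℝ) ≤ 1 + 2 * Real.log (Real.log N) := by
    have h1 : (i : ℝ) < Real.log (Real.log N) / Real.log 2 + 1 := by
      rw [hi]
      exact Nat.ceil_lt_add_one (by positivity)
    have h2 : Real.log (Real.log N) / Real.log 2 ≤ 2 * Real.log (Real.log N) := by
      rw [div_le_iff₀ (by linarith)]
      nlinarith
    linarith
  have hNz : (N : ℝ) ≤ z ^ (2 ^ i) := by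
    rw [← Real.log_le_log_iff hN0 (by positivity), Real.log_pow]
    have h1 : Real.log N ≤ ((2 ^ i : ℕ) : ℝ) := by
      push_cast
      rw [← Real.log_le_log_iff (by linarith) (by positivity), Real.log_pow]
      rwa [div_le_iff₀ (by linarith)] at hi1
    calc Real.log N ≤ ((2 ^ i : ℕ) : ℝ) * 1 := by rw [mul_one]; exact h1
      _ ≤ _ := mul_le_mul_of_nonneg_left hlogz (by positivity)
  have h1 := hrec i N hN hNz
  -- small primes
  rw [← Finset.sum_filter_add_sum_filter_not T (fun l : ℕ => l < p ^ 2)]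
  have hsmall : ∑ l ∈ T.filter (fun l : ℕ => l < p ^ 2), (1 : ℝ) / l ≤ 1 := by
    have h2 : ∑ l ∈ T.filter (fun l : ℕ => l < p ^ 2), (1 : ℝ) / l ≤
        ∑ k ∈ Icc 1 p, (1 : ℝ) / p * (1 / k) := by
      have hinj : Set.InjOn (fun l : ℕ => l / p) (T.filter (fun l : ℕ => l < p ^ 2) : Finset ℕ) := by
        intro d hd e he h
        rw [Finset.mem_coe, Finset.mem_filter] at hd he
        have h5 := Nat.div_add_mod d p
        have h6 := Nat.div_add_mod e p
        simp only at h
        rw [(hT d hd.1).2.2] at h5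
        rw [(hT e he.1).2.2] at h6
        rw [← h5, ← h6, h]
      calc ∑ l ∈ T.filter (fun l : ℕ => l < p ^ 2), (1 : ℝ) / l ≤
          ∑ l ∈ T.filter (fun l : ℕ => l < p ^ 2), (1 : ℝ) / p * (1 / ((l / p : ℕ) : ℝ)) := by
            refine Finset.sum_le_sum fun l hl => ?_
            rw [Finset.mem_filter] at hl
            have hlT := hT l hl.1
            have h5 := Nat.div_add_mod l p
            rw [hlT.2.2] at h5
            have hk : 0 < l / p := by
              rcases Nat.eq_zero_or_pos (l / p) with h0 | h0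
              · rw [h0] at h5
                have := hlT.1.two_le
                omega
              · exact h0
            have hk' : (0 : ℝ) < ((l / p : ℕ) : ℝ) := by exact_mod_cast hk
            rw [one_div_mul_one_div]
            apply one_div_le_one_div_of_le (by positivity)
            have : p * (l / p) ≤ l := by omega
            exact_mod_cast this
        _ = ∑ k ∈ (T.filter (fun l : ℕ => l < p ^ 2)).image (fun l : ℕ => l / p),
            (1 : ℝ) / p * (1 / (k : ℝ)) := by
            rw [Finset.sum_image hinj]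
        _ ≤ _ := by
            apply Finset.sum_le_sum_of_subset_of_nonneg
            · intro k hk
              obtain ⟨l, hl, rfl⟩ := Finset.mem_image.1 hk
              rw [Finset.mem_filter] at hl
              have hlT := hT l hl.1
              have h5 := Nat.div_add_mod l p
              rw [hlT.2.2] at h5
              rw [Finset.mem_Icc]
              constructor
              · rcases Nat.eq_zero_or_pos (l / p) with h0 | h0
                · rw [h0] at h5
                  have := hlT.1.two_le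
                  omega
                · exact h0
              · have : l / p < p := by
                  rw [Nat.div_lt_iff_lt_mul hp.pos, ← sq]
                  exact hl.2
                exact this.le
            · intro k _ _
              positivity
    refine h2.trans ?_
    rw [← Finset.mul_sum]
    have h3 := harm (a := 1) (M := p) le_rfl hp.one_le
    rw [Nat.cast_one, div_one] at h3
    have h4 : Real.log p ≤ p - 1 := Real.log_le_sub_one_of_pos hp0
    rw [one_div, inv_mul_le_iff₀ hp0]
    linarith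
  have hlarge : ∑ l ∈ T.filter (fun l : ℕ => ¬ l < p ^ 2), (1 : ℝ) / l ≤ 144 * i / p := by
    refine le_trans ?_ h1
    apply Finset.sum_le_sum_of_subset_of_nonneg
    · intro l hl
      rw [Finset.mem_filter, not_lt] at hl
      have hlT := hT l hl.1
      refine mem_WW.2 ⟨⟨⟨hlT.1.one_le, hlT.2.1⟩, hlT.1, hlT.2.2⟩, ?_⟩
      rw [hz]
      exact_mod_cast hl.2
    · intro l _ _
      positivity
  have h2 : 144 * (i : ℝ) / p ≤ 144 + 288 / p * Real.log (Real.log N) := by
    have h3 : 144 * (i : ℝ) / p ≤ 144 * (1 + 2 * Real.log (Real.log N)) / p := by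
      apply div_le_div_of_nonneg_right _ hp0.le
      linarith
    have h4 : 144 * (1 + 2 * Real.log (Real.log N)) / p =
        144 / p + 288 / p * Real.log (Real.log N) := by ring
    have h5 : (144 : ℝ) / p ≤ 144 := div_le_self (by norm_num) (by linarith)
    linarith
  linarith

end Pool.Agent.Q15.SP
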