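import Mathlib

/-!
From dyadic blocks to intervals.
-/

set_option autoImplicit false

namespace Pool.Agent.Q15.SP

open Finset Real

/-- elements of `[1, N]` with property `Q` -/
noncomputable def FQ (Q : ℕ → Prop) (N : ℕ) : Finset ℕ := by
  classical
  exact (Icc 1 N).filter Q

lemma mem_FQ {Q : ℕ → Prop} {N b : ℕ} : b ∈ FQ Q N ↔ (1 ≤ b ∧ b ≤ N) ∧ Q b := by
  classical
  unfold FQ
  rw [Finset.mem_filter, Finset.mem_Icc]

lemma card_FQ_le (Q : ℕ → Prop) (N : ℕ) : (FQ Q N).card ≤ N := by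
  classical
  unfold FQ
  refine (Finset.card_filter_le _ _).trans ?_
  rw [Nat.card_Icc, Nat.add_sub_cancel]

theorem dyadic {Q : ℕ → Prop} {θ C : ℝ} {N0 : ℕ} (h0 : 0 ≤ θ) (h1 : θ ≤ 1)
    (h : ∀ N : ℕ, N0 ≤ N → ((FQ (fun b => N < 2 * b ∧ Q b) N).card : ℝ) ≤
      C * (N / Real.log N ^ θ)) :
    ∃ C' : ℝ, 0 ≤ C' ∧ ∀ N : ℕ, 3 ≤ N → ((FQ Q N).card : ℝ) ≤ C' * (N / Real.log N ^ θ) := by
  classical
  obtain ⟨N1, hN1⟩ : ∃ N1 : ℕ, N1 = max N0 27 := ⟨_, rfl⟩
  have hN10 : N0 ≤ N1 := hN1 ▸ le_max_left _ _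
  have hN127 : 27 ≤ N1 := hN1 ▸ le_max_right _ _
  obtain ⟨C', hC'⟩ : ∃ C' : ℝ, C' = max (max (4 * C) 0) (Real.log N1 ^ θ) := ⟨_, rfl⟩
  have hC1 : 4 * C ≤ C' := hC' ▸ (le_max_left _ _).trans (le_max_left _ _)
  have hC2 : 0 ≤ C' := hC' ▸ (le_max_right _ _).trans (le_max_left _ _)
  have hC3 : Real.log N1 ^ θ ≤ C' := hC' ▸ le_max_right _ _
  refine ⟨C', hC2, ?_⟩
  intro N
  induction N using Nat.strong_induction_on with
  | _ N ih =>
    intro hN
    have hNR : (3 : ℝ) ≤ N := by exact_mod_cast hN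
    have hN0 : (0 : ℝ) < N := by linarith
    have hlog : 0 < Real.log N := Real.log_pos (by linarith)
    have hlt : 0 < Real.log N ^ θ := Real.rpow_pos_of_pos hlog _
    rcases le_or_gt N N1 with hc | hc
    · have e1 : ((FQ Q N).card : ℝ) ≤ N := by exact_mod_cast card_FQ_le Q N
      have e2 : Real.log N ^ θ ≤ C' := by
        refine le_trans ?_ hC3
        apply Real.rpow_le_rpow hlog.le _ h0
        exact Real.log_le_log hN0 (by exact_mod_cast hc)
      refine e1.trans ?_
      rw [← mul_div_assoc, le_div_iff₀ hlt, mul_comm]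
      exact mul_le_mul_of_nonneg_right e2 hN0.le
    · have hN27 : 27 ≤ N := by omega
      have hM3 : 3 ≤ N / 2 := by omega
      have hsub : FQ Q N ⊆ FQ Q (N / 2) ∪ FQ (fun b => N < 2 * b ∧ Q b) N := by
        intro b hb
        rw [mem_FQ] at hb
        rw [Finset.mem_union, mem_FQ, mem_FQ]
        rcases Nat.lt_or_ge N (2 * b) with h2 | h2
        · exact Or.inr ⟨hb.1, h2, hb.2⟩
        · exact Or.inl ⟨⟨hb.1.1, by omega⟩, hb.2⟩
      have e1 : ((FQ Q N).card : ℝ) ≤ (FQ Q (N / 2)).card +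
          (FQ (fun b => N < 2 * b ∧ Q b) N).card := by
        exact_mod_cast (Finset.card_le_card hsub).trans (Finset.card_union_le _ _)
      have e2 := ih (N / 2) (by omega) hM3
      have e3 := h N (by omega)
      have hMN : (N : ℝ) / 3 ≤ ((N / 2 : ℕ) : ℝ) := by
        rw [div_le_iff₀ (by norm_num)]
        have : N ≤ (N / 2) * 3 := by omega
        exact_mod_cast this
      have hMN2 : ((N / 2 : ℕ) : ℝ) ≤ N / 2 := Nat.cast_div_le
      have hlogM : 2 / 3 * Real.log N ≤ Real.log ((N / 2 : ℕ) : ℝ) := by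
        have f1 := Real.log_le_log (by positivity) hMN
        rw [Real.log_div hN0.ne' (by norm_num)] at f1
        have f2 : 3 * Real.log 3 ≤ Real.log N := by
          have f3 : Real.log ((3 : ℝ) ^ 3) ≤ Real.log N := by
            apply Real.log_le_log (by norm_num)
            have : (27 : ℝ) ≤ N := by exact_mod_cast hN27
            linarith
          rw [Real.log_pow] at f3
          push_cast at f3
          exact f3
        linarith
      have hlogM2 : 2 / 3 * Real.log N ^ θ ≤ Real.log ((N / 2 : ℕ) : ℝ) ^ θ := by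
        have f1 : (2 / 3 * Real.log N) ^ θ ≤ Real.log ((N / 2 : ℕ) : ℝ) ^ θ :=
          Real.rpow_le_rpow (by positivity) hlogM h0
        rw [Real.mul_rpow (by norm_num) hlog.le] at f1
        have f2 : (2 / 3 : ℝ) ≤ (2 / 3 : ℝ) ^ θ := by
          have := Real.rpow_le_rpow_of_exponent_ge (x := (2 / 3 : ℝ)) (by norm_num) (by norm_num) h1
          rwa [Real.rpow_one] at this
        have f3 := mul_le_mul_of_nonneg_right f2 hlt.le
        linarith
      have e4 : C' * (((N / 2 : ℕ) : ℝ) / Real.log ((N / 2 : ℕ) : ℝ) ^ θ) ≤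
          C' * (3 / 4 * (N / Real.log N ^ θ)) := by
        apply mul_le_mul_of_nonneg_left _ hC2
        calc ((N / 2 : ℕ) : ℝ) / Real.log ((N / 2 : ℕ) : ℝ) ^ θ ≤
            (N / 2) / (2 / 3 * Real.log N ^ θ) :=
              div_le_div₀ (by positivity) hMN2 (by positivity) hlogM2
          _ = 3 / 4 * (N / Real.log N ^ θ) := by
              field_simp
              ring
      have hpos : 0 ≤ (N : ℝ) / Real.log N ^ θ := by positivity
      have e5 : C * (N / Real.log N ^ θ) ≤ 1 / 4 * C' * (N / Real.log N ^ θ) := by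
        apply mul_le_mul_of_nonneg_right _ hpos
        linarith
      calc ((FQ Q N).card : ℝ) ≤ _ := e1
        _ ≤ C' * (3 / 4 * (N / Real.log N ^ θ)) + C * (N / Real.log N ^ θ) :=
            add_le_add (e2.trans e4) e3
        _ ≤ C' * (3 / 4 * (N / Real.log N ^ θ)) + 1 / 4 * C' * (N / Real.log N ^ θ) := by linarith
        _ = C' * (N / Real.log N ^ θ) := by ring

end Pool.Agent.Q15.SP
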