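import Mathlib
import Pool.Agent.H474R2.GE.FA

/-!
Mertens' theorem (upper bound) for the primes congruent to `1` modulo `n`.
-/

set_option autoImplicit false

namespace Pool.Agent.Q15.SP

open Finset Real Polynomial

lemma rho_ge' {n l : ℕ} (hn : 0 < n) (hl : l.Prime) (hln : l % n = 1 % n) :
    n.totient ≤ Pool.Agent.H474R2.PG.rho (cyclotomic n ℤ) l := by
  classical
  have : Fact l.Prime := ⟨hl⟩
  have hdvd : n ∣ l - 1 := (Nat.modEq_iff_dvd' hl.one_le).1 (Nat.ModEq.symm hln)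
  obtain ⟨g, hg⟩ := IsCyclic.exists_monoid_generator (α := (ZMod l)ˣ)
  have hgo : orderOf g = l - 1 := by
    rw [orderOf_eq_card_of_forall_mem_powers hg, Nat.card_eq_fintype_card,
      ZMod.card_units_eq_totient, Nat.totient_prime hl]
  have hl1 : 0 < l - 1 := by
    have := hl.two_le
    omega
  obtain ⟨c, hc⟩ := hdvd
  have hc0 : c ≠ 0 := by
    rintro rfl
    omega
  have hz : IsPrimitiveRoot (((g ^ c : (ZMod l)ˣ)) : ZMod l) n := by
    rw [IsPrimitiveRoot.coe_units_iff]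
    have h1 : orderOf (g ^ c) = n := by
      rw [orderOf_pow_of_dvd hc0 (by rw [hgo, hc]; exact Dvd.intro_left n rfl), hgo, hc,
        Nat.mul_div_cancel _ (Nat.pos_of_ne_zero hc0)]
    rw [← h1]
    exact IsPrimitiveRoot.orderOf _
  rw [← hz.card_primitiveRoots]
  unfold Pool.Agent.H474R2.PG.rho
  apply Finset.card_le_card_of_injOn (fun z : ZMod l => z.val)
  · intro z hz'
    rw [Finset.mem_coe, mem_primitiveRoots hn] at hz'
    rw [Finset.mem_coe, Finset.mem_filter, Finset.mem_range]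
    refine ⟨ZMod.val_lt z, ?_⟩
    rw [← ZMod.intCast_zmod_eq_zero_iff_dvd]
    have h1 := hz'.isRoot_cyclotomic hn
    rw [IsRoot.def, ← map_cyclotomic n (Int.castRingHom (ZMod l))] at h1
    have h2 : ((z.val : ℤ) : ZMod l) = z := by
      rw [Int.cast_natCast, ZMod.natCast_zmod_val]
    rw [← h2, eval_intCast_map] at h1
    simpa using h1
  · intro a _ b _ h
    exact ZMod.val_injective l h

theorem mert {n : ℕ} (hn : 0 < n) : ∃ C : ℝ, 0 ≤ C ∧ ∀ N : ℕ, 3 ≤ N → ∀ T : Finset ℕ,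
    (∀ l ∈ T, l.Prime ∧ l ≤ N ∧ l % n = 1 % n) →
    ∑ l ∈ T, (1 : ℝ) / l ≤ 1 / (n.totient : ℝ) * Real.log (Real.log N) + C := by
  have htot : 0 < n.totient := Nat.totient_pos.2 hn
  have htR : (0 : ℝ) < n.totient := by exact_mod_cast htot
  obtain ⟨C, hC, h⟩ := Pool.Agent.H474R2.GE.mertens_rho (cyclotomic n ℤ)
    (cyclotomic.irreducible hn) (by rwa [natDegree_cyclotomic])
  refine ⟨C / n.totient, by positivity, fun N hN T hT => ?_⟩
  have h1 := (abs_le.1 (h N (by exact_mod_cast hN))).2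
  have h2 : (n.totient : ℝ) * ∑ l ∈ T, (1 : ℝ) / l ≤ Pool.Agent.H474R2.PG.Sg
      (Pool.Agent.H474R2.PG.rho (cyclotomic n ℤ)) N := by
    unfold Pool.Agent.H474R2.PG.Sg Pool.Agent.H474R2.PG.PR
    rw [Nat.floor_natCast, Finset.mul_sum]
    calc ∑ l ∈ T, (n.totient : ℝ) * ((1 : ℝ) / l) ≤
        ∑ l ∈ T, (Pool.Agent.H474R2.PG.rho (cyclotomic n ℤ) l : ℝ) / l := by
          refine Finset.sum_le_sum fun l hl => ?_
          obtain ⟨hl1, hl2, hl3⟩ := hT l hl
          rw [mul_one_div]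
          apply div_le_div_of_nonneg_right _ (Nat.cast_nonneg l)
          exact_mod_cast rho_ge' hn hl1 hl3
      _ ≤ _ := by
          apply Finset.sum_le_sum_of_subset_of_nonneg
          · intro l hl
            obtain ⟨hl1, hl2, hl3⟩ := hT l hl
            exact Finset.mem_filter.2 ⟨Finset.mem_Icc.2 ⟨hl1.one_le, hl2⟩, hl1⟩
          · intro l _ _
            positivity
  have h3 : ∑ l ∈ T, (1 : ℝ) / l ≤ (Real.log (Real.log N) + C) / n.totient := by
    rw [le_div_iff₀ htR, mul_comm]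
    linarith
  refine h3.trans (le_of_eq ?_)
  ring

end Pool.Agent.Q15.SP
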