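import Mathlib
import Pool.Agent.Q15.SP.Big
import Pool.Agent.Q15.SP.Mert
import Pool.Agent.Q15.SP.Dy

/-!
The dyadic blocks.
-/

set_option autoImplicit false

namespace Pool.Agent.Q15.SP

open Finset Real
open scoped ArithmeticFunction.vonMangoldt

lemma rp {t a θ : ℝ} (ht : 1 ≤ t) (h : a + θ ≤ 1) : t ^ a / t ≤ 1 / t ^ θ := by
  have t0 : 0 < t := by linarith
  rw [div_le_div_iff₀ t0 (Real.rpow_pos_of_pos t0 _), one_mul, ← Real.rpow_add t0]
  calc t ^ (a + θ) ≤ t ^ (1 : ℝ) := Real.rpow_le_rpow_of_exponent_le ht h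
    _ = t := Real.rpow_one t

lemma log_ge_one {N : ℕ} (hN : 3 ≤ N) : 1 ≤ Real.log N := by
  have hNR : (3 : ℝ) ≤ N := by exact_mod_cast hN
  rw [Real.le_log_iff_exp_le (by linarith)]
  have := Real.exp_one_lt_d9
  linarith

lemma exp_ll {t a C : ℝ} (ht : 0 < t) : Real.exp (a * Real.log t + C) = Real.exp C * t ^ a := by
  rw [Real.exp_add, Real.rpow_def_of_pos ht, mul_comm, mul_comm a]

/-- one prime power exponent -/
theorem fix_block {p n : ℕ} (hp : p.Prime) (hp2 : p ≠ 2) : ∃ (C : ℝ) (N0 : ℕ), 0 ≤ C ∧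
    ∀ N : ℕ, N0 ≤ N → ((EB (p ^ (n + 1)) N).card : ℝ) ≤
      C * (N * (Real.log N ^ (1 / ((p ^ (n + 1)).totient : ℝ)) / Real.log N)) := by
  obtain ⟨Q, hQ⟩ : ∃ Q : ℕ, Q = p ^ (n + 1) := ⟨_, rfl⟩
  have hQ1 : 1 < Q := hQ ▸ Nat.one_lt_pow (by omega) hp.one_lt
  rw [← hQ]
  obtain ⟨C1, hC1, hm⟩ := mert (n := Q) (by omega)
  have hp3 : 3 ≤ p := by
    have := hp.two_le
    omega
  have hpR : (3 : ℝ) ≤ p := by exact_mod_cast hp3
  have hl4 : 0 ≤ Real.log (4 * p) := Real.log_nonneg (by linarith)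
  have hK : 0 ≤ Real.log 4 + 4 := by
    have : 0 ≤ Real.log 4 := Real.log_nonneg (by norm_num)
    linarith
  refine ⟨2 * ((Real.log 4 + 4) * (1 + Real.log (4 * p)) * Real.exp (C1 + 1)), (4 * p) ^ 6 + 3,
    by positivity, fun N hN => ?_⟩
  have hN3 : 3 ≤ N := by omega
  have hlog := log_ge_one hN3
  have hNR : (3 : ℝ) ≤ N := by exact_mod_cast hN3
  have hS : ∑ m ∈ SG (GP Q) N, (1 : ℝ) / m ≤
      Real.exp (C1 + 1) * Real.log N ^ (1 / (Q.totient : ℝ)) := by
    have h1 := eulerG (GP Q) N (S := 1 / (Q.totient : ℝ) * Real.log (Real.log N) + C1) (by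
      intro T hT
      exact hm N hN3 T (fun l hl => by
        obtain ⟨h3, h4, h5⟩ := hT l hl
        refine ⟨h3, h4, ?_⟩
        rw [Nat.mod_eq_of_lt hQ1]
        exact h5))
    rw [add_assoc, exp_ll (by linarith)] at h1
    exact h1
  have h1 := card_EB' (p := p) (Q := Q) (N := N) hp3 (fun b hb => by
    obtain ⟨x, y, q, hx, hy, hxy, hq, he⟩ := hb
    rw [hQ] at he
    obtain ⟨b1, b2, hs, h5⟩ := ss_pow hp hp2 hq hxy hx hy he
    rw [← hQ] at h5
    exact ⟨b1, b2, hs, h5⟩) hK (cheb (GP Q)) hS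
  have hL : 1 / 2 * Real.log N ≤ 2 / 3 * Real.log N - Real.log (4 * p) := by
    have h2 : 6 * Real.log (4 * p) ≤ Real.log N := by
      have h3 : Real.log ((4 * (p : ℝ)) ^ 6) ≤ Real.log N := by
        apply Real.log_le_log (by positivity)
        exact_mod_cast (by omega : (4 * p) ^ 6 ≤ N)
      rw [Real.log_pow] at h3
      exact_mod_cast h3
    linarith
  have h2 : ((EB Q N).card : ℝ) * (1 / 2 * Real.log N) ≤
      (Real.log 4 + 4) * N * (1 + Real.log (4 * p)) *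
        (Real.exp (C1 + 1) * Real.log N ^ (1 / (Q.totient : ℝ))) :=
    (mul_le_mul_of_nonneg_left hL (Nat.cast_nonneg _)).trans h1
  have hl0 : 0 < Real.log N := by linarith
  have h3 : ((EB Q N).card : ℝ) ≤ (Real.log 4 + 4) * N * (1 + Real.log (4 * p)) *
        (Real.exp (C1 + 1) * Real.log N ^ (1 / (Q.totient : ℝ))) / (1 / 2 * Real.log N) := by
    rw [le_div_iff₀ (by positivity)]
    exact h2
  refine h3.trans (le_of_eq ?_)
  field_simp

/-- the primes between `P1` and `6 log N` -/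
noncomputable def TT (P1 N : ℕ) : Finset ℕ := (Icc P1 ⌊6 * Real.log N⌋₊).filter Nat.Prime

theorem big_block {η : ℝ} (hη : 0 < η) : ∃ (P1 : ℕ) (C : ℝ) (N0 : ℕ), 3 ≤ P1 ∧ 0 ≤ C ∧
    ∀ N : ℕ, N0 ≤ N → ∑ p ∈ TT P1 N, ((EB p N).card : ℝ) ≤
      C * (N * (Real.log N ^ (2 * η) / Real.log N)) := by
  obtain ⟨C1, Pa, hC1, hPa, hψ⟩ := psi_big
  obtain ⟨Pb, hPb, hrec⟩ := rec_big
  obtain ⟨P1, hP1⟩ : ∃ P1 : ℕ, P1 = max (max Pa Pb) ⌈288 / η⌉₊ := ⟨_, rfl⟩
  have hP1a : Pa ≤ P1 := hP1 ▸ (le_max_left _ _).trans (le_max_left _ _)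
  have hP1b : Pb ≤ P1 := hP1 ▸ (le_max_right _ _).trans (le_max_left _ _)
  have hP1c : ⌈288 / η⌉₊ ≤ P1 := hP1 ▸ le_max_right _ _
  obtain ⟨ε, hε⟩ : ∃ ε : ℝ, ε = η / 3 := ⟨_, rfl⟩
  have hε0 : 0 < ε := by rw [hε]; positivity
  -- `1 + log (24 t) ≤ C2 t ^ ε`
  obtain ⟨C2, hC2⟩ : ∃ C2 : ℝ, C2 = 1 + (24 : ℝ) ^ ε / ε := ⟨_, rfl⟩
  have hC20 : 0 < C2 := by rw [hC2]; positivity
  have hlogb : ∀ t : ℝ, 1 ≤ t → 1 + Real.log (24 * t) ≤ C2 * t ^ ε := by
    intro t ht
    have h1 := Real.log_le_rpow_div (x := 24 * t) (by linarith) hε0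
    rw [Real.mul_rpow (by norm_num) (by linarith)] at h1
    have h2 : 1 ≤ t ^ ε := Real.one_le_rpow ht hε0.le
    rw [hC2]
    calc 1 + Real.log (24 * t) ≤ t ^ ε + 24 ^ ε * t ^ ε / ε := by linarith
      _ = _ := by ring
  -- threshold for `N`
  obtain ⟨x0, hx0⟩ : ∃ x0 : ℝ, ∀ x : ℝ, x0 ≤ x → Real.log (24 * x) ≤ 1 / 6 * x := by
    refine ⟨150000, fun x hx => ?_⟩
    have h1 := Real.log_le_rpow_div (x := 24 * x) (ε := 1 / 2) (by linarith) (by norm_num)
    have h2 : (24 * x) ^ (1 / 2 : ℝ) ≤ 1 / 12 * x := by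
      rw [← Real.sqrt_eq_rpow]
      rw [Real.sqrt_le_left (by linarith)]
      nlinarith
    have h3 : (24 * x) ^ (1 / 2 : ℝ) / (1 / 2) = 2 * (24 * x) ^ (1 / 2 : ℝ) := by ring
    rw [h3] at h1
    linarith
  refine ⟨P1, 2 * (C1 * Real.exp 146 * C2 ^ 3), ⌈Real.exp x0⌉₊ + 3, by omega, by positivity,
    fun N hN => ?_⟩
  have hN3 : 3 ≤ N := by omega
  have hlog := log_ge_one hN3
  have hl0 : 0 < Real.log N := by linarith
  have hNR : (3 : ℝ) ≤ N := by exact_mod_cast hN3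
  have hN0 : (0 : ℝ) < N := by linarith
  have hxN : x0 ≤ Real.log N := by
    rw [Real.le_log_iff_exp_le hN0]
    exact (Nat.le_ceil _).trans (by exact_mod_cast (by omega : ⌈Real.exp x0⌉₊ ≤ N))
  have hlogll := hx0 _ hxN
  obtain ⟨B, hB⟩ : ∃ B : ℝ, B = 1 + Real.log (24 * Real.log N) := ⟨_, rfl⟩
  have hB1 : B ≤ C2 * Real.log N ^ ε := hB ▸ hlogb _ hlog
  have hB0 : 1 ≤ B := by
    have : 0 ≤ Real.log (24 * Real.log N) := Real.log_nonneg (by linarith)
    rw [hB]
    linarith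
  have hone : ∀ p ∈ TT P1 N, ((EB p N).card : ℝ) ≤
      2 * (C1 * Real.exp 146) * (N * (Real.log N ^ η / Real.log N)) * B ^ 2 * (1 / p) := by
    intro p hp
    rw [TT, Finset.mem_filter, Finset.mem_Icc] at hp
    obtain ⟨⟨hp1, hp6⟩, hpp⟩ := hp
    have hp3 : 3 ≤ p := by omega
    have hpR : (3 : ℝ) ≤ p := by exact_mod_cast hp3
    have hp0 : (0 : ℝ) < p := by linarith
    have hp6R : (p : ℝ) ≤ 6 * Real.log N := (Nat.le_floor_iff (by positivity)).1 hp6
    have hlp0 : 0 ≤ Real.log p := Real.log_nonneg (by linarith)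
    have hl4 : Real.log (4 * p) ≤ Real.log (24 * Real.log N) :=
      Real.log_le_log (by positivity) (by linarith)
    have hlpB : Real.log p ≤ B := by
      have : Real.log p ≤ Real.log (4 * p) := Real.log_le_log hp0 (by linarith)
      rw [hB]
      linarith
    have hl40 : 0 ≤ Real.log (4 * p) := Real.log_nonneg (by linarith)
    have hpη : 288 / (p : ℝ) ≤ η := by
      rw [div_le_iff₀ hp0, mul_comm, ← div_le_iff₀ hη]
      exact (Nat.le_ceil _).trans (by exact_mod_cast hP1c.trans hp1)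
    have hS : ∑ m ∈ SG (GP p) N, (1 : ℝ) / m ≤ Real.exp 146 * Real.log N ^ η := by
      have h1 := eulerG (GP p) N (S := 288 / p * Real.log (Real.log N) + 145) (by
        intro T hT
        have := hrec p hpp (hP1b.trans hp1) N hN3 T hT
        linarith)
      rw [add_assoc, exp_ll hl0, show (145 : ℝ) + 1 = 146 by norm_num] at h1
      refine h1.trans ?_
      apply mul_le_mul_of_nonneg_left _ (Real.exp_pos _).le
      exact Real.rpow_le_rpow_of_exponent_le hlog hpη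
    have h1 := card_EB (p := p) (N := N) hpp (by omega) (K := C1 * (Real.log p / p))
      (by positivity) (hψ p hpp (hP1a.trans hp1)) hS
    have hL : 1 / 2 * Real.log N ≤ 2 / 3 * Real.log N - Real.log (4 * p) := by linarith
    have h2 : ((EB p N).card : ℝ) * (1 / 2 * Real.log N) ≤
        C1 * (Real.log p / p) * N * (1 + Real.log (4 * p)) *
          (Real.exp 146 * Real.log N ^ η) :=
      (mul_le_mul_of_nonneg_left hL (Nat.cast_nonneg _)).trans h1
    have h3 : C1 * (Real.log p / p) * N * (1 + Real.log (4 * p)) *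
          (Real.exp 146 * Real.log N ^ η) ≤ C1 * (B / p) * N * B *
          (Real.exp 146 * Real.log N ^ η) := by
      have e0 : 0 ≤ Real.log N ^ η := by positivity
      have e1 : C1 * (Real.log p / p) * N ≤ C1 * (B / p) * N := by
        apply mul_le_mul_of_nonneg_right _ hN0.le
        apply mul_le_mul_of_nonneg_left _ hC1
        exact div_le_div_of_nonneg_right hlpB hp0.le
      have e2 : 1 + Real.log (4 * p) ≤ B := by rw [hB]; linarith
      have e3 : C1 * (Real.log p / p) * N * (1 + Real.log (4 * p)) ≤ C1 * (B / p) * N * B :=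
        mul_le_mul e1 e2 (by positivity) (by positivity)
      exact mul_le_mul_of_nonneg_right e3 (by positivity)
    have h4 : ((EB p N).card : ℝ) ≤ C1 * (B / p) * N * B *
          (Real.exp 146 * Real.log N ^ η) / (1 / 2 * Real.log N) := by
      rw [le_div_iff₀ (by positivity)]
      exact h2.trans h3
    refine h4.trans (le_of_eq ?_)
    field_simp
  have hsum : ∑ p ∈ TT P1 N, (1 : ℝ) / p ≤ B := by
    obtain ⟨M, hM⟩ : ∃ M : ℕ, M = ⌊6 * Real.log N⌋₊ := ⟨_, rfl⟩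
    have hM1 : 1 ≤ M := by
      rw [hM]
      apply Nat.le_floor
      push_cast
      linarith
    have h1 : ∑ p ∈ TT P1 N, (1 : ℝ) / p ≤ ∑ k ∈ Icc 1 M, (1 : ℝ) / k := by
      apply Finset.sum_le_sum_of_subset_of_nonneg
      · intro p hp
        rw [TT, Finset.mem_filter, Finset.mem_Icc, ← hM] at hp
        rw [Finset.mem_Icc]
        exact ⟨hp.2.one_le, hp.1.2⟩
      · intro k _ _
        positivity
    have h2 := harm (a := 1) (M := M) le_rfl hM1
    rw [Nat.cast_one, div_one] at h2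
    have h3 : Real.log M ≤ Real.log (24 * Real.log N) := by
      have hM0 : (0 : ℝ) < M := by exact_mod_cast hM1
      apply Real.log_le_log hM0
      have : (M : ℝ) ≤ 6 * Real.log N := by
        rw [hM]
        exact Nat.floor_le (by positivity)
      linarith
    rw [hB]
    linarith
  have hX0 : 0 ≤ 2 * (C1 * Real.exp 146) * (N * (Real.log N ^ η / Real.log N)) := by positivity
  calc ∑ p ∈ TT P1 N, ((EB p N).card : ℝ) ≤ ∑ p ∈ TT P1 N,
      2 * (C1 * Real.exp 146) * (N * (Real.log N ^ η / Real.log N)) * B ^ 2 * (1 / p) :=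
        Finset.sum_le_sum hone
    _ = 2 * (C1 * Real.exp 146) * (N * (Real.log N ^ η / Real.log N)) * B ^ 2 *
        ∑ p ∈ TT P1 N, (1 : ℝ) / p := by rw [Finset.mul_sum]
    _ ≤ 2 * (C1 * Real.exp 146) * (N * (Real.log N ^ η / Real.log N)) * B ^ 2 * B :=
        mul_le_mul_of_nonneg_left hsum (by positivity)
    _ = 2 * (C1 * Real.exp 146) * (N * (Real.log N ^ η / Real.log N)) * B ^ 3 := by ring
    _ ≤ 2 * (C1 * Real.exp 146) * (N * (Real.log N ^ η / Real.log N)) *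
        (C2 * Real.log N ^ ε) ^ 3 := by
        apply mul_le_mul_of_nonneg_left _ hX0
        exact pow_le_pow_left₀ (by linarith) hB1 3
    _ = 2 * (C1 * Real.exp 146 * C2 ^ 3) * (N * (Real.log N ^ η * (Real.log N ^ ε) ^ 3 /
        Real.log N)) := by ring
    _ = _ := by
        congr 4
        rw [← Real.rpow_natCast, ← Real.rpow_mul hl0.le, ← Real.rpow_add hl0]
        congr 1
        rw [hε]
        push_cast
        ring

end Pool.Agent.Q15.SP
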