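import Mathlib
import Pool.Agent.Q15.SP.Blk

/-!
Sums of two coprime powers with exponents which are not coprime: the final bounds.
-/

set_option autoImplicit false

namespace Pool.Agent.Q15.SP

open Finset Real
open scoped ArithmeticFunction.vonMangoldt

/-- the bases `b` of sums of two coprime `p`-th powers with a prime `p ≥ r` -/
def QO (r b : ℕ) : Prop := ∃ p : ℕ, p.Prime ∧ r ≤ p ∧ Bs p b

lemma p_le_log {p b N : ℕ} (hp : p.Prime) (hp2 : p ≠ 2) (hb : 2 < b) (hbN : b ≤ N)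
    (h : Bs p b) : (p : ℝ) ≤ 6 * Real.log N := by
  obtain ⟨x, y, q, hx, hy, hxy, hq, he⟩ := h
  obtain ⟨b1, b2, hs⟩ := ss_of_solution hp hp2 hq hxy hx hy he
  have h1 := hs.pb hb
  have h2 : (3 : ℝ) ^ p ≤ 2 ^ p * (N : ℝ) ^ 2 := by
    have : 3 ^ p ≤ 2 ^ p * N ^ 2 := h1.trans (Nat.mul_le_mul_left _ (Nat.pow_le_pow_left hbN 2))
    exact_mod_cast this
  have hN0 : (0 : ℝ) < N := by exact_mod_cast (by omega : 0 < N)
  have h3 := Real.log_le_log (by positivity) h2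
  rw [Real.log_mul (by positivity) (by positivity), Real.log_pow, Real.log_pow, Real.log_pow] at h3
  have h4 : (1 : ℝ) / 3 ≤ Real.log 3 - Real.log 2 := by
    rw [← Real.log_div (by norm_num) (by norm_num)]
    have := Real.one_sub_inv_le_log_of_pos (x := (3 : ℝ) / 2) (by norm_num)
    norm_num at this ⊢
    linarith
  have hp0 : (0 : ℝ) ≤ p := Nat.cast_nonneg _
  have h5 := mul_le_mul_of_nonneg_left h4 hp0
  push_cast at h3
  linarith

theorem odd_block {r : ℕ} (hr : 3 ≤ r) : ∃ (C : ℝ) (N0 : ℕ), ∀ N : ℕ, N0 ≤ N →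
    ((FQ (fun b => N < 2 * b ∧ QO r b) N).card : ℝ) ≤
      C * (N / Real.log N ^ (1 - 1 / ((r : ℝ) - 1))) := by
  classical
  have hrR : (3 : ℝ) ≤ r := by exact_mod_cast hr
  have hr1 : (0 : ℝ) < (r : ℝ) - 1 := by linarith
  obtain ⟨θ, hθ⟩ : ∃ θ : ℝ, θ = 1 - 1 / ((r : ℝ) - 1) := ⟨_, rfl⟩
  rw [← hθ]
  obtain ⟨P1, C1, N1, hP1, hC1, hbig⟩ := big_block (η := 1 / (2 * ((r : ℝ) - 1))) (by positivity)
  have hfix : ∀ p : ℕ, ∃ (C : ℝ) (N0 : ℕ), 0 ≤ C ∧ ∀ N : ℕ, N0 ≤ N → p.Prime → r ≤ p →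
      ((EB p N).card : ℝ) ≤ C * (N / Real.log N ^ θ) := by
    intro p
    by_cases hp : p.Prime ∧ r ≤ p
    · obtain ⟨C, N0, hC, h⟩ := fix_block (n := 0) hp.1 (by omega)
      rw [zero_add, pow_one, Nat.totient_prime hp.1, Nat.cast_sub hp.1.one_le, Nat.cast_one] at h
      refine ⟨C, N0 + 3, hC, fun N hN _ _ => (h N (by omega)).trans ?_⟩
      apply mul_le_mul_of_nonneg_left _ hC
      rw [div_eq_mul_one_div (N : ℝ)]
      apply mul_le_mul_of_nonneg_left _ (Nat.cast_nonneg _)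
      apply rp (log_ge_one (by omega))
      have h1 : (r : ℝ) ≤ p := by exact_mod_cast hp.2
      have h2 : 1 / ((p : ℝ) - 1) ≤ 1 / ((r : ℝ) - 1) :=
        one_div_le_one_div_of_le hr1 (by linarith)
      rw [hθ]
      linarith
    · exact ⟨0, 0, le_rfl, fun N _ h1 h2 => absurd ⟨h1, h2⟩ hp⟩
  choose Cf Nf hCf hf using hfix
  refine ⟨∑ p ∈ range P1, Cf p + C1, N1 + (range P1).sup Nf + 6, fun N hN => ?_⟩
  have hN3 : 3 ≤ N := by omega
  have hlog := log_ge_one hN3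
  have hX : (0 : ℝ) ≤ N / Real.log N ^ θ := by
    have : 0 < Real.log N := by linarith
    positivity
  have hsub : FQ (fun b => N < 2 * b ∧ QO r b) N ⊆
      ((range P1).filter (fun p => p.Prime ∧ r ≤ p)).biUnion (fun p => EB p N) ∪
        (TT P1 N).biUnion (fun p => EB p N) := by
    intro b hb
    rw [mem_FQ] at hb
    obtain ⟨⟨hb1, hbN⟩, hN2, p, hp, hrp, hB⟩ := hb
    rw [Finset.mem_union, Finset.mem_biUnion, Finset.mem_biUnion]
    rcases Nat.lt_or_ge p P1 with h1 | h1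
    · left
      exact ⟨p, Finset.mem_filter.2 ⟨Finset.mem_range.2 h1, hp, hrp⟩, mem_EB.2 ⟨⟨hb1, hbN⟩, hN2, hB⟩⟩
    · right
      refine ⟨p, ?_, mem_EB.2 ⟨⟨hb1, hbN⟩, hN2, hB⟩⟩
      rw [TT, Finset.mem_filter, Finset.mem_Icc]
      exact ⟨⟨h1, Nat.le_floor (p_le_log hp (by omega) (by omega) hbN hB)⟩, hp⟩
  have h1 : ((FQ (fun b => N < 2 * b ∧ QO r b) N).card : ℝ) ≤
      ∑ p ∈ (range P1).filter (fun p => p.Prime ∧ r ≤ p), ((EB p N).card : ℝ) +
        ∑ p ∈ TT P1 N, ((EB p N).card : ℝ) := by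
    have h2 := (Finset.card_le_card hsub).trans (Finset.card_union_le _ _)
    have h3 := h2.trans (Nat.add_le_add Finset.card_biUnion_le Finset.card_biUnion_le)
    exact_mod_cast h3
  have h2 : ∑ p ∈ (range P1).filter (fun p => p.Prime ∧ r ≤ p), ((EB p N).card : ℝ) ≤
      (∑ p ∈ range P1, Cf p) * (N / Real.log N ^ θ) := by
    rw [Finset.sum_mul]
    calc _ ≤ ∑ p ∈ (range P1).filter (fun p => p.Prime ∧ r ≤ p), Cf p * (N / Real.log N ^ θ) := by
          refine Finset.sum_le_sum fun p hp => ?_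
          rw [Finset.mem_filter] at hp
          have h3 : Nf p ≤ (range P1).sup Nf := Finset.le_sup (f := Nf) hp.1
          exact hf p N (by omega) hp.2.1 hp.2.2
      _ ≤ _ := Finset.sum_le_sum_of_subset_of_nonneg (Finset.filter_subset _ _)
          (fun p _ _ => mul_nonneg (hCf p) hX)
  have h3 : ∑ p ∈ TT P1 N, ((EB p N).card : ℝ) ≤ C1 * (N / Real.log N ^ θ) := by
    refine (hbig N (by omega)).trans ?_
    apply mul_le_mul_of_nonneg_left _ hC1
    rw [div_eq_mul_one_div (N : ℝ)]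
    apply mul_le_mul_of_nonneg_left _ (Nat.cast_nonneg _)
    apply rp hlog
    rw [hθ]
    apply le_of_eq
    field_simp
    ring
  calc _ ≤ _ := h1
    _ ≤ (∑ p ∈ range P1, Cf p) * (N / Real.log N ^ θ) + C1 * (N / Real.log N ^ θ) := add_le_add h2 h3
    _ = _ := by ring

/-- the condition for the primes `2` and `≡ 1` modulo `2 ^ (s + 1)` -/
def G2 (s l : ℕ) : Prop := l = 2 ∨ l % 2 ^ (s + 1) = 1

theorem even_block (s : ℕ) : ∃ (C : ℝ) (N0 : ℕ), ∀ N : ℕ, N0 ≤ N →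
    ((FQ (fun b => N < 2 * b ∧ AllG (G2 s) b) N).card : ℝ) ≤
      C * (N / Real.log N ^ (1 - 1 / (2 : ℝ) ^ s)) := by
  classical
  obtain ⟨C1, hC1, hm⟩ := mert (n := 2 ^ (s + 1)) (by positivity)
  have htot : ((Nat.totient (2 ^ (s + 1)) : ℕ) : ℝ) = 2 ^ s := by
    rw [Nat.totient_prime_pow_succ Nat.prime_two]
    simp
  rw [htot] at hm
  obtain ⟨a, ha⟩ : ∃ a : ℝ, a = 1 / (2 : ℝ) ^ s := ⟨_, rfl⟩
  rw [← ha] at hm
  rw [← ha]
  have hK : 0 ≤ Real.log 4 + 4 := by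
    have : 0 ≤ Real.log 4 := Real.log_nonneg (by norm_num)
    linarith
  refine ⟨2 * ((Real.log 4 + 4) * Real.exp (C1 + 2)), 4, fun N hN => ?_⟩
  have hN3 : 3 ≤ N := by omega
  have hlog := log_ge_one hN3
  have hl0 : 0 < Real.log N := by linarith
  have hNR : (4 : ℝ) ≤ N := by exact_mod_cast hN
  have hN0 : (0 : ℝ) < N := by linarith
  have hS : ∑ m ∈ SG (G2 s) N, (1 : ℝ) / m ≤ Real.exp (C1 + 2) * Real.log N ^ a := by
    have h1 := eulerG (G2 s) N (S := a * Real.log (Real.log N) + (C1 + 1)) (by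
      intro T hT
      rw [← Finset.sum_filter_add_sum_filter_not T (fun l : ℕ => l = 2)]
      have h2 : ∑ l ∈ T.filter (fun l : ℕ => l = 2), (1 : ℝ) / l ≤ 1 := by
        calc ∑ l ∈ T.filter (fun l : ℕ => l = 2), (1 : ℝ) / l ≤ ∑ l ∈ ({2} : Finset ℕ), (1 : ℝ) / l := by
              apply Finset.sum_le_sum_of_subset_of_nonneg
              · intro l hl
                rw [Finset.mem_filter] at hl
                rw [Finset.mem_singleton]
                exact hl.2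
              · intro l _ _
                positivity
          _ ≤ 1 := by
              rw [Finset.sum_singleton]
              norm_num
      have h3 := hm N hN3 (T.filter (fun l : ℕ => ¬ l = 2)) (fun l hl => by
        rw [Finset.mem_filter] at hl
        obtain ⟨h4, h5, h6⟩ := hT l hl.1
        refine ⟨h4, h5, ?_⟩
        rw [Nat.mod_eq_of_lt (Nat.one_lt_pow (by omega) (by norm_num))]
        exact h6.resolve_left hl.2)
      linarith)
    rw [add_assoc, exp_ll hl0, add_assoc, show (1 : ℝ) + 1 = 2 by norm_num] at h1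
    exact h1
  have h := lam (G := G2 s) (N := N) (W := {1}) (E := FQ (fun b => N < 2 * b ∧ AllG (G2 s) b) N)
    (L := 1 / 2 * Real.log N) (fun w hw => by
      rw [Finset.mem_singleton] at hw
      rw [hw]) hK (cheb (G2 s)) (by
      intro b hb
      rw [mem_FQ] at hb
      obtain ⟨⟨hb1, hbN⟩, hN2, hG⟩ := hb
      refine ⟨hbN, 1, Finset.mem_singleton_self 1, b, (one_mul b).symm, hb1, hG, ?_⟩
      have hbR : (0 : ℝ) < b := by exact_mod_cast hb1
      have h1 : (N : ℝ) ≤ (b : ℝ) ^ 2 := by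
        have h2 : (N : ℝ) < 2 * b := by exact_mod_cast hN2
        nlinarith
      have h2 := Real.log_le_log hN0 h1
      rw [Real.log_pow] at h2
      push_cast at h2
      linarith)
  have h1 : ∑ w ∈ ({1} : Finset ℕ), (1 : ℝ) / w = 1 := by
    rw [Finset.sum_singleton]
    norm_num
  rw [h1, mul_one] at h
  have h2 : ((FQ (fun b => N < 2 * b ∧ AllG (G2 s) b) N).card : ℝ) * (1 / 2 * Real.log N) ≤
      (Real.log 4 + 4) * N * (Real.exp (C1 + 2) * Real.log N ^ a) :=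
    h.trans (mul_le_mul_of_nonneg_left hS (by positivity))
  have h3 : ((FQ (fun b => N < 2 * b ∧ AllG (G2 s) b) N).card : ℝ) ≤
      (Real.log 4 + 4) * N * (Real.exp (C1 + 2) * Real.log N ^ a) /
        (1 / 2 * Real.log N) := by
    rw [le_div_iff₀ (by positivity)]
    exact h2
  refine h3.trans ?_
  have h4 : (Real.log 4 + 4) * N * (Real.exp (C1 + 2) * Real.log N ^ a) /
        (1 / 2 * Real.log N) = 2 * ((Real.log 4 + 4) * Real.exp (C1 + 2)) *
        (N * (Real.log N ^ a / Real.log N)) := by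
    field_simp
  rw [h4]
  apply mul_le_mul_of_nonneg_left _ (by positivity)
  rw [div_eq_mul_one_div (N : ℝ)]
  apply mul_le_mul_of_nonneg_left _ hN0.le
  exact rp hlog (by linarith)

/-- one odd prime power -/
theorem pow_block {p n : ℕ} (hp : p.Prime) (hp2 : p ≠ 2) : ∃ (C : ℝ) (N0 : ℕ),
    ∀ N : ℕ, N0 ≤ N → ((FQ (fun b => N < 2 * b ∧ Bs (p ^ (n + 1)) b) N).card : ℝ) ≤
      C * (N / Real.log N ^ (1 - 1 / ((p ^ (n + 1)).totient : ℝ))) := by
  obtain ⟨C, N0, hC, h⟩ := fix_block (n := n) hp hp2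
  refine ⟨C, N0 + 3, fun N hN => ?_⟩
  have h1 : FQ (fun b => N < 2 * b ∧ Bs (p ^ (n + 1)) b) N = EB (p ^ (n + 1)) N := by
    ext b
    rw [mem_FQ, mem_EB]
  rw [h1]
  refine (h N (by omega)).trans ?_
  apply mul_le_mul_of_nonneg_left _ hC
  rw [div_eq_mul_one_div (N : ℝ)]
  apply mul_le_mul_of_nonneg_left _ (Nat.cast_nonneg _)
  exact rp (log_ge_one (by omega)) (by linarith)

/-- the bases `c ≤ N` with `a ^ m + b ^ n = c ^ k`, `a`, `b ≥ 1` coprime, `k ≥ 1`, `R m n` -/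
def Bases (N : ℕ) (R : ℕ → ℕ → Prop) : Set ℕ :=
  {c | 0 < c ∧ c ≤ N ∧ ∃ a b m n k : ℕ, 0 < a ∧ 0 < b ∧ 0 < k ∧ Nat.Coprime a b ∧ R m n ∧
    a ^ m + b ^ n = c ^ k}

lemma Bs_of {p a b c m n k : ℕ} (hpm : p ∣ m) (hpn : p ∣ n) (ha : 0 < a) (hb : 0 < b)
    (hk : 0 < k) (hab : Nat.Coprime a b) (h : a ^ m + b ^ n = c ^ k) : Bs p c := by
  obtain ⟨m', rfl⟩ := hpm
  obtain ⟨n', rfl⟩ := hpn
  refine ⟨a ^ m', b ^ n', k, Nat.pow_pos ha, Nat.pow_pos hb, hab.pow _ _, hk, ?_⟩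
  rw [← h, ← pow_mul, ← pow_mul, mul_comm m' p, mul_comm n' p]

lemma ncard_le_of {N : ℕ} {R : ℕ → ℕ → Prop} {T : Finset ℕ} (h : ∀ c ∈ Bases N R, c ∈ T) :
    ((Bases N R).ncard : ℝ) ≤ T.card := by
  have h1 : (Bases N R).ncard ≤ (T : Set ℕ).ncard :=
    Set.ncard_le_ncard (fun c hc => Finset.mem_coe.2 (h c hc)) T.finite_toSet
  rw [Set.ncard_coe_finset] at h1
  exact_mod_cast h1

theorem main_odd {r : ℕ} (hr : 3 ≤ r) : ∃ C : ℝ, 0 ≤ C ∧ ∀ N : ℕ, 3 ≤ N →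
    ((Bases N (fun m n => ∃ p : ℕ, p.Prime ∧ r ≤ p ∧ p ∣ m ∧ p ∣ n)).ncard : ℝ) ≤
      C * (N / Real.log N ^ (1 - 1 / ((r : ℝ) - 1))) := by
  obtain ⟨C, N0, h⟩ := odd_block hr
  have hrR : (3 : ℝ) ≤ r := by exact_mod_cast hr
  have h1 : 0 ≤ 1 / ((r : ℝ) - 1) := by
    have : (0 : ℝ) < (r : ℝ) - 1 := by linarith
    positivity
  have h2 : 1 / ((r : ℝ) - 1) ≤ 1 := by
    rw [div_le_one (by linarith)]
    linarith
  obtain ⟨C', hC', h'⟩ := dyadic (Q := QO r) (by linarith) (by linarith) h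
  refine ⟨C', hC', fun N hN => (ncard_le_of ?_).trans (h' N hN)⟩
  rintro c ⟨hc, hcN, a, b, m, n, k, ha, hb, hk, hab, ⟨p, hp, hrp, hpm, hpn⟩, he⟩
  exact mem_FQ.2 ⟨⟨hc, hcN⟩, p, hp, hrp, Bs_of hpm hpn ha hb hk hab he⟩

/-- a weaker exponent -/
lemma weaken {N : ℕ} (hN : 3 ≤ N) {θ θ' C : ℝ} (hC : 0 ≤ C) (h : θ' ≤ θ) :
    C * (N / Real.log N ^ θ) ≤ C * (N / Real.log N ^ θ') := by
  have hlog := log_ge_one hN
  apply mul_le_mul_of_nonneg_left _ hC
  apply div_le_div_of_nonneg_left (Nat.cast_nonneg _) (Real.rpow_pos_of_pos (by linarith) _)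
  exact Real.rpow_le_rpow_of_exponent_le hlog h

theorem main_all : ∃ C : ℝ, ∀ N : ℕ, 3 ≤ N →
    ((Bases N (fun m n => 1 < Nat.gcd m n)).ncard : ℝ) ≤ C * (N / Real.sqrt (Real.log N)) := by
  classical
  obtain ⟨C, N0, h⟩ := odd_block (r := 3) le_rfl
  obtain ⟨C1, N1, h1⟩ := even_block 1
  have hθ : (1 - 1 / (((3 : ℕ) : ℝ) - 1)) = 1 / 2 := by norm_num
  have hθ1 : (1 - 1 / (2 : ℝ) ^ 1) = 1 / 2 := by norm_num
  rw [hθ] at h
  rw [hθ1] at h1
  obtain ⟨C', hC', h'⟩ := dyadic (Q := QO 3) (by norm_num) (by norm_num) h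
  obtain ⟨C1', hC1', h1'⟩ := dyadic (Q := AllG (G2 1)) (by norm_num) (by norm_num) h1
  refine ⟨C' + C1', fun N hN => ?_⟩
  have h2 : ((Bases N (fun m n => 1 < Nat.gcd m n)).ncard : ℝ) ≤
      ((FQ (QO 3) N ∪ FQ (AllG (G2 1)) N).card : ℝ) := by
    apply ncard_le_of
    rintro c ⟨hc, hcN, a, b, m, n, k, ha, hb, hk, hab, hg, he⟩
    obtain ⟨p, hp, hpg⟩ := Nat.exists_prime_and_dvd (n := Nat.gcd m n) (by omega)
    have hB := Bs_of (hpg.trans (Nat.gcd_dvd_left _ _)) (hpg.trans (Nat.gcd_dvd_right _ _))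
      ha hb hk hab he
    rw [Finset.mem_union, mem_FQ, mem_FQ]
    rcases Nat.lt_or_ge p 3 with h3 | h3
    · right
      have hp2 : p = 2 ^ 1 := by
        have := hp.two_le
        omega
      rw [hp2] at hB
      obtain ⟨x, y, q, _, _, hxy, hq, he'⟩ := hB
      exact ⟨⟨hc, hcN⟩, even_case hxy he' (by omega)⟩
    · left
      exact ⟨⟨hc, hcN⟩, p, hp, h3, hB⟩
  have h3 : ((FQ (QO 3) N ∪ FQ (AllG (G2 1)) N).card : ℝ) ≤
      (FQ (QO 3) N).card + (FQ (AllG (G2 1)) N).card := by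
    exact_mod_cast Finset.card_union_le _ _
  have h4 := h' N hN
  have h5 := h1' N hN
  rw [← Real.sqrt_eq_rpow] at h4 h5
  calc _ ≤ _ := h2
    _ ≤ _ := h3
    _ ≤ C' * (N / Real.sqrt (Real.log N)) + C1' * (N / Real.sqrt (Real.log N)) := add_le_add h4 h5
    _ = _ := by ring

/-- a large number has a large prime divisor or is divisible by a large power of a prime -/
lemma large_gcd {M r g : ℕ} (hg : r.factorial ^ M < g) :
    ∃ p : ℕ, p.Prime ∧ p ∣ g ∧ (r ≤ p ∨ p ^ (M + 1) ∣ g) := by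
  by_contra hc
  push Not at hc
  have h1 : g ∣ r.factorial ^ M := by
    rw [Nat.dvd_iff_prime_pow_dvd_dvd]
    intro p k hp hk
    rcases Nat.eq_zero_or_pos k with h0 | h0
    · rw [h0, pow_zero]
      exact one_dvd _
    · obtain ⟨h2, h3⟩ := hc p hp ((dvd_pow_self p (by omega)).trans hk)
      have h4 : k ≤ M := by
        by_contra hkM
        exact h3 ((pow_dvd_pow p (by omega)).trans hk)
      exact (pow_dvd_pow p h4).trans (pow_dvd_pow_of_dvd (Nat.dvd_factorial hp.pos h2.le) M)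
  have h2 := Nat.le_of_dvd (by positivity) h1
  omega

theorem main_large {M : ℕ} (hM : 2 ≤ M) : ∃ (D : ℕ) (C : ℝ), ∀ N : ℕ, 3 ≤ N →
    ((Bases N (fun m n => D < Nat.gcd m n)).ncard : ℝ) ≤
      C * (N / Real.log N ^ (1 - 1 / (M : ℝ))) := by
  classical
  have hMR : (2 : ℝ) ≤ M := by exact_mod_cast hM
  obtain ⟨θ, hθ⟩ : ∃ θ : ℝ, θ = 1 - 1 / (M : ℝ) := ⟨_, rfl⟩
  rw [← hθ]
  have hM1 : 1 / (M : ℝ) ≤ 1 := by
    rw [div_le_one (by linarith)]
    linarith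
  have hM0 : 0 ≤ 1 / (M : ℝ) := by positivity
  -- primes `≥ M + 1`
  obtain ⟨C, N0, h⟩ := odd_block (r := M + 1) (by omega)
  have hθ0 : (1 - 1 / (((M + 1 : ℕ) : ℝ) - 1)) = θ := by
    rw [hθ]
    push_cast
    rw [add_sub_cancel_right]
  rw [hθ0] at h
  obtain ⟨C', hC', h'⟩ := dyadic (Q := QO (M + 1)) (by linarith) (by linarith) h
  -- powers of two
  obtain ⟨C1, N1, h1⟩ := even_block (M + 1)
  have hp2 : (M : ℝ) ≤ 2 ^ (M + 1) := by
    have : M < 2 ^ M := Nat.lt_two_pow_self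
    have h2 : M ≤ 2 ^ (M + 1) := this.le.trans (Nat.pow_le_pow_right (by norm_num) (by omega))
    exact_mod_cast h2
  have hinv : 1 / (2 : ℝ) ^ (M + 1) ≤ 1 / M := one_div_le_one_div_of_le (by linarith) hp2
  have hinv0 : 0 ≤ 1 / (2 : ℝ) ^ (M + 1) := by positivity
  obtain ⟨C1', hC1', h1'⟩ := dyadic (Q := AllG (G2 (M + 1))) (by linarith) (by linarith) h1
  -- odd prime powers
  have hpw : ∀ p : ℕ, ∃ C : ℝ, 0 ≤ C ∧ ∀ N : ℕ, 3 ≤ N → p.Prime → p ≠ 2 →
      ((FQ (Bs (p ^ (M + 1))) N).card : ℝ) ≤ C * (N / Real.log N ^ θ) := by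
    intro p
    by_cases hp : p.Prime ∧ p ≠ 2
    · obtain ⟨C2, N2, h2⟩ := pow_block (n := M) hp.1 hp.2
      have htot : (M : ℝ) ≤ ((p ^ (M + 1)).totient : ℝ) := by
        rw [Nat.totient_prime_pow_succ hp.1]
        have e1 : M < 2 ^ M := Nat.lt_two_pow_self
        have e2 : 2 ^ M ≤ p ^ M := Nat.pow_le_pow_left hp.1.two_le M
        have e3 : p ^ M ≤ p ^ M * (p - 1) := Nat.le_mul_of_pos_right _ (by
          have := hp.1.two_le
          omega)
        exact_mod_cast (e1.le.trans (e2.trans e3))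
      have hinv2 : 1 / ((p ^ (M + 1)).totient : ℝ) ≤ 1 / M :=
        one_div_le_one_div_of_le (by linarith) htot
      have hinv3 : 0 ≤ 1 / ((p ^ (M + 1)).totient : ℝ) := by positivity
      obtain ⟨C2', hC2', h2'⟩ := dyadic (Q := Bs (p ^ (M + 1))) (by linarith) (by linarith) h2
      refine ⟨C2', hC2', fun N hN _ _ => (h2' N hN).trans ?_⟩
      exact weaken hN hC2' (by linarith)
    · exact ⟨0, le_rfl, fun N _ e1 e2 => absurd ⟨e1, e2⟩ hp⟩
  choose Cf hCf hf using hpw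
  refine ⟨(M + 1).factorial ^ M, C' + C1' + ∑ p ∈ range (M + 1), Cf p, fun N hN => ?_⟩
  have hlog := log_ge_one hN
  have hX : (0 : ℝ) ≤ N / Real.log N ^ θ := by
    have : 0 < Real.log N := by linarith
    positivity
  have hsub : ((Bases N (fun m n => (M + 1).factorial ^ M < Nat.gcd m n)).ncard : ℝ) ≤
      ((FQ (QO (M + 1)) N ∪ FQ (AllG (G2 (M + 1))) N ∪
        ((range (M + 1)).filter (fun p => p.Prime ∧ p ≠ 2)).biUnion
          (fun p => FQ (Bs (p ^ (M + 1))) N)).card : ℝ) := by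
    apply ncard_le_of
    rintro c ⟨hc, hcN, a, b, m, n, k, ha, hb, hk, hab, hg, he⟩
    obtain ⟨p, hp, hpg, hor⟩ := large_gcd hg
    rw [Finset.mem_union, Finset.mem_union, Finset.mem_biUnion, mem_FQ, mem_FQ]
    rcases Nat.lt_or_ge p (M + 1) with h3 | h3
    · have hpw := hor.resolve_left (by omega)
      have hB := Bs_of (hpw.trans (Nat.gcd_dvd_left _ _)) (hpw.trans (Nat.gcd_dvd_right _ _))
        ha hb hk hab he
      by_cases hp2' : p = 2
      · left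
        right
        rw [hp2'] at hB
        obtain ⟨x, y, q, _, _, hxy, hq, he'⟩ := hB
        exact ⟨⟨hc, hcN⟩, even_case hxy he' (by omega)⟩
      · right
        exact ⟨p, Finset.mem_filter.2 ⟨Finset.mem_range.2 h3, hp, hp2'⟩, mem_FQ.2 ⟨⟨hc, hcN⟩, hB⟩⟩
    · left
      left
      exact ⟨⟨hc, hcN⟩, p, hp, h3, Bs_of (hpg.trans (Nat.gcd_dvd_left _ _))
        (hpg.trans (Nat.gcd_dvd_right _ _)) ha hb hk hab he⟩
  have h3 : ((FQ (QO (M + 1)) N ∪ FQ (AllG (G2 (M + 1))) N ∪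
        ((range (M + 1)).filter (fun p => p.Prime ∧ p ≠ 2)).biUnion
          (fun p => FQ (Bs (p ^ (M + 1))) N)).card : ℝ) ≤
      (FQ (QO (M + 1)) N).card + (FQ (AllG (G2 (M + 1))) N).card +
        ∑ p ∈ (range (M + 1)).filter (fun p => p.Prime ∧ p ≠ 2),
          ((FQ (Bs (p ^ (M + 1))) N).card : ℝ) := by
    have e1 := Finset.card_union_le (FQ (QO (M + 1)) N ∪ FQ (AllG (G2 (M + 1))) N)
      (((range (M + 1)).filter (fun p => p.Prime ∧ p ≠ 2)).biUnion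
          (fun p => FQ (Bs (p ^ (M + 1))) N))
    have e2 := Finset.card_union_le (FQ (QO (M + 1)) N) (FQ (AllG (G2 (M + 1))) N)
    have e3 := Finset.card_biUnion_le (s := (range (M + 1)).filter (fun p => p.Prime ∧ p ≠ 2))
      (t := fun p => FQ (Bs (p ^ (M + 1))) N)
    exact_mod_cast e1.trans (Nat.add_le_add e2 e3)
  have h4 := h' N hN
  have h5 := (h1' N hN).trans (weaken (θ' := θ) hN hC1' (by linarith))
  have h6 : ∑ p ∈ (range (M + 1)).filter (fun p => p.Prime ∧ p ≠ 2),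
      ((FQ (Bs (p ^ (M + 1))) N).card : ℝ) ≤ (∑ p ∈ range (M + 1), Cf p) * (N / Real.log N ^ θ) := by
    rw [Finset.sum_mul]
    calc _ ≤ ∑ p ∈ (range (M + 1)).filter (fun p => p.Prime ∧ p ≠ 2),
          Cf p * (N / Real.log N ^ θ) := by
          refine Finset.sum_le_sum fun p hp => ?_
          rw [Finset.mem_filter] at hp
          exact hf p N hN hp.2.1 hp.2.2
      _ ≤ _ := Finset.sum_le_sum_of_subset_of_nonneg (Finset.filter_subset _ _)
          (fun p _ _ => mul_nonneg (hCf p) hX)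
  calc _ ≤ _ := hsub
    _ ≤ _ := h3
    _ ≤ C' * (N / Real.log N ^ θ) + C1' * (N / Real.log N ^ θ) +
        (∑ p ∈ range (M + 1), Cf p) * (N / Real.log N ^ θ) := add_le_add (add_le_add h4 h5) h6
    _ = _ := by ring

/-- the general theorem: common prime power divisors `Q` of the two exponents -/
theorem main_pp {M : ℕ} (hM : 2 ≤ M) : ∃ C : ℝ, ∀ N : ℕ, 3 ≤ N →
    ((Bases N (fun m n => ∃ Q : ℕ, IsPrimePow Q ∧ M ≤ (2 * Q).totient ∧ Q ∣ m ∧ Q ∣ n)).ncard : ℝ) ≤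
      C * (N / Real.log N ^ (1 - 1 / (M : ℝ))) := by
  classical
  have hMR : (2 : ℝ) ≤ M := by exact_mod_cast hM
  obtain ⟨θ, hθ⟩ : ∃ θ : ℝ, θ = 1 - 1 / (M : ℝ) := ⟨_, rfl⟩
  rw [← hθ]
  have hM1 : 1 / (M : ℝ) ≤ 1 := by
    rw [div_le_one (by linarith)]
    linarith
  have hM0 : 0 ≤ 1 / (M : ℝ) := by positivity
  -- primes `≥ M + 1`
  obtain ⟨C, N0, h⟩ := odd_block (r := M + 1) (by omega)
  have hθ0 : (1 - 1 / (((M + 1 : ℕ) : ℝ) - 1)) = θ := by
    rw [hθ]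
    push_cast
    rw [add_sub_cancel_right]
  rw [hθ0] at h
  obtain ⟨C', hC', h'⟩ := dyadic (Q := QO (M + 1)) (by linarith) (by linarith) h
  -- powers of two
  obtain ⟨s0, hs0⟩ : ∃ s0 : ℕ, s0 = Nat.clog 2 M := ⟨_, rfl⟩
  obtain ⟨C1, N1, h1⟩ := even_block s0
  have hp2 : (M : ℝ) ≤ 2 ^ s0 := by
    have : M ≤ 2 ^ s0 := hs0 ▸ Nat.le_pow_clog (by norm_num) M
    exact_mod_cast this
  have hinv : 1 / (2 : ℝ) ^ s0 ≤ 1 / M := one_div_le_one_div_of_le (by linarith) hp2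
  have hinv0 : 0 ≤ 1 / (2 : ℝ) ^ s0 := by positivity
  obtain ⟨C1', hC1', h1'⟩ := dyadic (Q := AllG (G2 s0)) (by linarith) (by linarith) h1
  -- odd prime powers
  have hpw : ∀ t : ℕ × ℕ, ∃ C : ℝ, 0 ≤ C ∧ ∀ N : ℕ, 3 ≤ N → t.1.Prime → t.1 ≠ 2 →
      M ≤ (t.1 ^ (t.2 + 1)).totient →
      ((FQ (Bs (t.1 ^ (t.2 + 1))) N).card : ℝ) ≤ C * (N / Real.log N ^ θ) := by
    rintro ⟨p, n⟩
    simp only
    by_cases hp : (p.Prime ∧ p ≠ 2) ∧ M ≤ (p ^ (n + 1)).totient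
    · obtain ⟨C2, N2, h2⟩ := pow_block (n := n) hp.1.1 hp.1.2
      have htot : (M : ℝ) ≤ ((p ^ (n + 1)).totient : ℝ) := by exact_mod_cast hp.2
      have hinv2 : 1 / ((p ^ (n + 1)).totient : ℝ) ≤ 1 / M :=
        one_div_le_one_div_of_le (by linarith) htot
      have hinv3 : 0 ≤ 1 / ((p ^ (n + 1)).totient : ℝ) := by positivity
      obtain ⟨C2', hC2', h2'⟩ := dyadic (Q := Bs (p ^ (n + 1))) (by linarith) (by linarith) h2
      refine ⟨C2', hC2', fun N hN _ _ _ => (h2' N hN).trans ?_⟩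
      exact weaken hN hC2' (by linarith)
    · exact ⟨0, le_rfl, fun N _ e1 e2 e3 => absurd ⟨⟨e1, e2⟩, e3⟩ hp⟩
  choose Cf hCf hf using hpw
  obtain ⟨J, hJ⟩ : ∃ J : Finset (ℕ × ℕ), J = (range (M + 1)) ×ˢ (range (M + 1)) := ⟨_, rfl⟩
  obtain ⟨J', hJ'⟩ : ∃ J' : Finset (ℕ × ℕ), J' = J.filter (fun t => t.1.Prime ∧ t.1 ≠ 2 ∧
    M ≤ (t.1 ^ (t.2 + 1)).totient) := ⟨_, rfl⟩
  refine ⟨C' + C1' + ∑ t ∈ J, Cf t, fun N hN => ?_⟩
  have hlog := log_ge_one hN
  have hX : (0 : ℝ) ≤ N / Real.log N ^ θ := by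
    have : 0 < Real.log N := by linarith
    positivity
  have hsub : ((Bases N (fun m n => ∃ Q : ℕ, IsPrimePow Q ∧ M ≤ (2 * Q).totient ∧
      Q ∣ m ∧ Q ∣ n)).ncard : ℝ) ≤
      ((FQ (QO (M + 1)) N ∪ FQ (AllG (G2 s0)) N ∪
        J'.biUnion (fun t => FQ (Bs (t.1 ^ (t.2 + 1))) N)).card : ℝ) := by
    apply ncard_le_of
    rintro c ⟨hc, hcN, a, b, m, n, k, ha, hb, hk, hab, ⟨Q, hQ, hQM, hQm, hQn⟩, he⟩
    obtain ⟨p, s, hp, hs, rfl⟩ := (isPrimePow_nat_iff _).1 hQ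
    rw [Finset.mem_union, Finset.mem_union, Finset.mem_biUnion, mem_FQ, mem_FQ]
    by_cases hp2' : p = 2
    · left
      right
      rw [hp2', ← pow_succ', Nat.totient_prime_pow_succ Nat.prime_two] at hQM
      have h3 : s0 ≤ s := by
        rw [hs0]
        exact Nat.clog_le_of_le_pow (by simpa using hQM)
      have h4 : 2 ^ s0 ∣ p ^ s := by
        rw [hp2']
        exact pow_dvd_pow 2 h3
      obtain ⟨x, y, q, _, _, hxy, hq, he'⟩ := Bs_of (h4.trans hQm) (h4.trans hQn) ha hb hk hab he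
      exact ⟨⟨hc, hcN⟩, even_case hxy he' (by omega)⟩
    · have hodd : Nat.Coprime 2 (p ^ s) :=
        Nat.Coprime.pow_right _ ((Nat.coprime_primes Nat.prime_two hp).2 (fun h => hp2' h.symm))
      rw [Nat.totient_mul hodd, Nat.totient_two, one_mul] at hQM
      rcases Nat.lt_or_ge p (M + 1) with h3 | h3
      · right
        obtain ⟨s', hs', hs'M, hφ⟩ : ∃ s' : ℕ, s' + 1 ≤ s ∧ s' < M + 1 ∧
            M ≤ (p ^ (s' + 1)).totient := by
          rcases Nat.lt_or_ge s (M + 2) with h4 | h4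
          · refine ⟨s - 1, by omega, by omega, ?_⟩
            rwa [Nat.sub_add_cancel (by omega)]
          · refine ⟨M, by omega, by omega, ?_⟩
            rw [Nat.totient_prime_pow_succ hp]
            have e1 : M < 2 ^ M := Nat.lt_two_pow_self
            have e2 : 2 ^ M ≤ p ^ M := Nat.pow_le_pow_left hp.two_le M
            have e3 : p ^ M ≤ p ^ M * (p - 1) := Nat.le_mul_of_pos_right _ (by
              have := hp.two_le
              omega)
            exact e1.le.trans (e2.trans e3)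
        have h5 : p ^ (s' + 1) ∣ p ^ s := pow_dvd_pow p hs'
        refine ⟨(p, s'), ?_, mem_FQ.2 ⟨⟨hc, hcN⟩, Bs_of (h5.trans hQm) (h5.trans hQn) ha hb hk hab he⟩⟩
        rw [hJ', hJ, Finset.mem_filter, Finset.mem_product, Finset.mem_range, Finset.mem_range]
        exact ⟨⟨h3, hs'M⟩, hp, hp2', hφ⟩
      · left
        left
        have h5 : p ∣ p ^ s := dvd_pow_self p (by omega)
        exact ⟨⟨hc, hcN⟩, p, hp, h3, Bs_of (h5.trans hQm) (h5.trans hQn) ha hb hk hab he⟩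
  have h3 : ((FQ (QO (M + 1)) N ∪ FQ (AllG (G2 s0)) N ∪
        J'.biUnion (fun t => FQ (Bs (t.1 ^ (t.2 + 1))) N)).card : ℝ) ≤
      (FQ (QO (M + 1)) N).card + (FQ (AllG (G2 s0)) N).card +
        ∑ t ∈ J', ((FQ (Bs (t.1 ^ (t.2 + 1))) N).card : ℝ) := by
    have e1 := Finset.card_union_le (FQ (QO (M + 1)) N ∪ FQ (AllG (G2 s0)) N)
      (J'.biUnion (fun t => FQ (Bs (t.1 ^ (t.2 + 1))) N))
    have e2 := Finset.card_union_le (FQ (QO (M + 1)) N) (FQ (AllG (G2 s0)) N)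
    have e3 := Finset.card_biUnion_le (s := J') (t := fun t => FQ (Bs (t.1 ^ (t.2 + 1))) N)
    exact_mod_cast e1.trans (Nat.add_le_add e2 e3)
  have h4 := h' N hN
  have h5 := (h1' N hN).trans (weaken (θ' := θ) hN hC1' (by linarith))
  have h6 : ∑ t ∈ J', ((FQ (Bs (t.1 ^ (t.2 + 1))) N).card : ℝ) ≤
      (∑ t ∈ J, Cf t) * (N / Real.log N ^ θ) := by
    rw [Finset.sum_mul]
    calc _ ≤ ∑ t ∈ J', Cf t * (N / Real.log N ^ θ) := by
          refine Finset.sum_le_sum fun t ht => ?_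
          rw [hJ', Finset.mem_filter] at ht
          exact hf t N hN ht.2.1 ht.2.2.1 ht.2.2.2
      _ ≤ _ := by
          rw [hJ']
          exact Finset.sum_le_sum_of_subset_of_nonneg (Finset.filter_subset _ _)
            (fun p _ _ => mul_nonneg (hCf p) hX)
  calc _ ≤ _ := hsub
    _ ≤ _ := h3
    _ ≤ C' * (N / Real.log N ^ θ) + C1' * (N / Real.log N ^ θ) +
        (∑ t ∈ J, Cf t) * (N / Real.log N ^ θ) := add_le_add (add_le_add h4 h5) h6
    _ = _ := by ring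

end Pool.Agent.Q15.SP
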